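import Pool.Agent.Helper1.TD.Link

/-!
# Theorem D: the local frames of the theta lemma and of the L1 lemma
-/

set_option autoImplicit false
set_option synthInstance.maxSize 2000

namespace Pool.Agent.Helper1.TD

open SimpleGraph Pool.Agent.Helper57.TOK Pool.Agent.Helper57.TD Pool.Agent.Helper82.TK

variable {V W : Type*}

/-- Image of a graph under a map. -/
def imG (φ : W → V) (K : SimpleGraph W) : SimpleGraph V where
  Adj u v := u ≠ v ∧ ∃ x y, K.Adj x y ∧ φ x = u ∧ φ y = v
  symm := ⟨by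
    rintro u v ⟨h1, x, y, h2, h3, h4⟩
    exact ⟨h1.symm, y, x, h2.symm, h4, h3⟩⟩
  loopless := ⟨fun _ h => h.1 rfl⟩

/-- A frame of a concrete graph gives a local frame. -/
theorem loc_of_fin {n : ℕ} {K : SimpleGraph (Fin n)} {Z : SimpleGraph V} {κ : V → ZMod 2}
    (hZ : Proper Z κ) {κ0 : Fin n → ZMod 2} {a b u v : Fin n} (φ : Fin n → V)
    (hφ : Function.Injective φ) (h : ∀ x y, K.Adj x y → Z.Adj (φ x) (φ y))
    (hab : ¬ K.Adj a b) (huv : ¬ K.Adj u v) (h1 : vl κ0 a b = vl κ (φ a) (φ b))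
    (h2 : vl κ0 u v = vl κ (φ u) (φ v)) (hF : Frame K κ0 a b u v) {F Q : Set V}
    (hFQ : ∀ i, φ i ∈ F ∪ Q) : LocFr Z κ F Q (φ a) (φ b) (φ u) (φ v) := by
  have hle : imG φ K ≤ Z := by
    rintro x y ⟨-, x', y', h3, rfl, rfl⟩
    exact h x' y' h3
  have hno : ∀ {x y : Fin n}, ¬ K.Adj x y → ¬ (imG φ K).Adj (φ x) (φ y) := by
    rintro x y hn ⟨-, x', y', h3, h4, h5⟩
    rw [hφ h4, hφ h5] at h3
    exact hn h3
  have hprop : Proper (imG φ K) κ := fun x y hxy => hZ x y (hle hxy)
  refine ⟨imG φ K, hle, ?_, hno hab, hno huv, ?_⟩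
  · rintro x ⟨y, -, x', y', -, rfl, -⟩
    exact hFQ x'
  · rw [frameE_iff_frame hprop]
    refine Frame.of_injective φ hφ ?_ (hno hab) (hno huv) h1 h2 hF
    intro x y hxy
    exact ⟨fun hh => hxy.ne (hφ hh), x, y, hxy, rfl, rfl⟩

/-- Theta graph: poles 0 and 4, middle vertices 1, 2, 3, without the edge 01. -/
def TH : SimpleGraph (Fin 5) := ofList [(0, 2), (0, 3), (4, 1), (4, 2), (4, 3)]

instance : DecidableRel TH.Adj := inferInstanceAs (DecidableRel (ofList _).Adj)

lemma tok_TH : HasTOK4s (frameG TH 0 1 2 3) (c0 0 1 2 3 0 1) :=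
  HasTOK4s.of_lists ![0, 2, 4, 3]
    (sixLists [0, 2] [0, 1, 4] [0, 3] [2, 4] [2, 3] [4, 3])
    (by decide) (by decide) (by decide)

/-- The graph of the L1 lemma; terminals 0 = c, 1 = a, 2 = e, 3 = g; 4 = y, 5 = w1, 6 = w2,
7 = b. -/
def L8 : SimpleGraph (Fin 8) :=
  ofList [(4, 1), (4, 7), (4, 0), (5, 1), (5, 2), (5, 3), (6, 7), (6, 2), (6, 3)]

instance : DecidableRel L8.Adj := inferInstanceAs (DecidableRel (ofList _).Adj)

lemma tok_L8_1 : HasTOK4s (frameG L8 0 1 2 3) (c0 0 1 2 3 1 1) :=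
  HasTOK4s.of_lists ![5, 2, 6, 3]
    (sixLists [5, 2] [5, 1, 0, 4, 7, 6] [5, 3] [2, 6] [2, 3] [6, 3])
    (by decide) (by decide) (by decide)

lemma tok_L8_2 : HasTOK4s (frameG L8 0 2 1 3) (c0 0 2 1 3 1 1) :=
  HasTOK4s.of_lists ![4, 1, 5, 3]
    (sixLists [4, 1] [4, 0, 2, 5] [4, 7, 6, 3] [1, 5] [1, 3] [5, 3])
    (by decide) (by decide) (by decide)

lemma tok_L8_3 : HasTOK4s (frameG L8 0 3 1 2) (c0 0 3 1 2 1 1) :=
  HasTOK4s.of_lists ![4, 1, 5, 2]
    (sixLists [4, 1] [4, 0, 3, 5] [4, 7, 6, 2] [1, 5] [1, 2] [5, 2])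
    (by decide) (by decide) (by decide)

lemma vl_eq_of_eq {κ : V → ZMod 2} {x y : V} (h : κ x = κ y) : vl κ x y = 1 := by
  unfold vl
  have h0 : κ y + κ y = 0 := CharTwo.add_self_eq_zero _
  rw [h, add_assoc, h0, add_zero]

lemma vl_eq_of_ne {κ : V → ZMod 2} {x y : V} (h : κ x ≠ κ y) : vl κ x y = 0 := by
  unfold vl
  revert h
  generalize κ x = a
  generalize κ y = b
  revert a b
  decide

/-- Local frame of a theta: `c`, `d` joined by `z1`, `z2`, `z3`; pairing `{c,z1} | {z2,z3}`. -/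
theorem loc_theta {Z : SimpleGraph V} {κ : V → ZMod 2} (hZ : Proper Z κ) {c d z1 z2 z3 : V}
    (hcd : c ≠ d) (h12 : z1 ≠ z2) (h13 : z1 ≠ z3) (h23 : z2 ≠ z3)
    (c1 : Z.Adj c z1) (c2 : Z.Adj c z2) (c3 : Z.Adj c z3)
    (d1 : Z.Adj d z1) (d2 : Z.Adj d z2) (d3 : Z.Adj d z3) {F Q : Set V}
    (hc : c ∈ F ∪ Q) (hd : d ∈ F ∪ Q) (hz1 : z1 ∈ F ∪ Q) (hz2 : z2 ∈ F ∪ Q)
    (hz3 : z3 ∈ F ∪ Q) : LocFr Z κ F Q c z1 z2 z3 := by
  let φ : Fin 5 → V := ![c, z1, z2, z3, d]
  have hφ : Function.Injective φ := by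
    intro x y hxy
    fin_cases x <;> fin_cases y <;>
      first
        | rfl
        | exact absurd hxy c1.ne
        | exact absurd hxy c2.ne
        | exact absurd hxy c3.ne
        | exact absurd hxy hcd
        | exact absurd hxy h12
        | exact absurd hxy h13
        | exact absurd hxy h23
        | exact absurd hxy d1.ne
        | exact absurd hxy d2.ne
        | exact absurd hxy d3.ne
        | exact absurd hxy.symm c1.ne
        | exact absurd hxy.symm c2.ne
        | exact absurd hxy.symm c3.ne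
        | exact absurd hxy.symm hcd
        | exact absurd hxy.symm h12
        | exact absurd hxy.symm h13
        | exact absurd hxy.symm h23
        | exact absurd hxy.symm d1.ne
        | exact absurd hxy.symm d2.ne
        | exact absurd hxy.symm d3.ne
  have hne : κ c ≠ κ z1 := add_eq_one_iff.1 (hZ c z1 c1)
  have heq : κ z2 = κ z3 :=
    eq_of_ne_of_ne (add_eq_one_iff.1 (hZ c z2 c2)).symm (add_eq_one_iff.1 (hZ c z3 c3)).symm
  have hadj : ∀ x y, TH.Adj x y → Z.Adj (φ x) (φ y) := by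
    intro x y hxy
    fin_cases x <;> fin_cases y <;>
      first
        | exact absurd hxy (by decide)
        | exact c2
        | exact c3
        | exact d1
        | exact d2
        | exact d3
        | exact c2.symm
        | exact c3.symm
        | exact d1.symm
        | exact d2.symm
        | exact d3.symm
  refine loc_of_fin (K := TH) (κ0 := ![0, 1, 1, 1, 0]) (a := 0) (b := 1) (u := 2) (v := 3)
    hZ φ hφ hadj (by decide) (by decide) ?_ ?_ ?_ ?_
  · show vl _ _ _ = vl κ c z1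
    rw [vl_eq_of_ne hne]; decide
  · show vl _ _ _ = vl κ z2 z3
    rw [vl_eq_of_eq heq]; decide
  · exact Frame.of_c0 (by decide) (by decide) tok_TH
  · intro i
    fin_cases i
    · exact hc
    · exact hz1
    · exact hz2
    · exact hz3
    · exact hd

/-- The hypotheses of the L1 lemma. -/
structure L1Data (Z : SimpleGraph V) (w1 w2 y a b c e g : V) : Prop where
  ww : w1 ≠ w2
  yw1 : y ≠ w1
  yw2 : y ≠ w2
  ab : a ≠ b
  ca : c ≠ a
  cb : c ≠ b
  ce : c ≠ e
  cg : c ≠ g
  eg : e ≠ g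
  ae : a ≠ e
  ag : a ≠ g
  be : b ≠ e
  bg : b ≠ g
  ya : Z.Adj y a
  yb : Z.Adj y b
  yc : Z.Adj y c
  w1a : Z.Adj w1 a
  w1e : Z.Adj w1 e
  w1g : Z.Adj w1 g
  w2b : Z.Adj w2 b
  w2e : Z.Adj w2 e
  w2g : Z.Adj w2 g

/-- The three local frames of the L1 lemma. -/
theorem loc_L1 {Z : SimpleGraph V} {κ : V → ZMod 2} (hZ : Proper Z κ) {w1 w2 y a b c e g : V}
    (h : L1Data Z w1 w2 y a b c e g) {F Q : Set V}
    (hc : c ∈ F ∪ Q) (ha : a ∈ F ∪ Q) (he : e ∈ F ∪ Q) (hg : g ∈ F ∪ Q)
    (hy : y ∈ F ∪ Q) (hw1 : w1 ∈ F ∪ Q) (hw2 : w2 ∈ F ∪ Q) (hb : b ∈ F ∪ Q) :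
    LocFr Z κ F Q c a e g ∧ LocFr Z κ F Q c e a g ∧ LocFr Z κ F Q c g a e := by
  have hcol : ∀ {x z z' : V}, Z.Adj x z → Z.Adj x z' → κ z = κ z' := fun h1 h2 =>
    eq_of_ne_of_ne (add_eq_one_iff.1 (hZ _ _ h1)).symm (add_eq_one_iff.1 (hZ _ _ h2)).symm
  have hnc : ∀ {x z : V}, Z.Adj x z → κ x ≠ κ z := fun h1 => add_eq_one_iff.1 (hZ _ _ h1)
  have kac : κ c = κ a := hcol h.yc h.ya
  have kae : κ a = κ e := hcol h.w1a h.w1e
  have kag : κ a = κ g := hcol h.w1a h.w1g
  have kab : κ a = κ b := hcol h.ya h.yb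
  have kya : κ y ≠ κ a := hnc h.ya
  have kw1 : κ w1 ≠ κ a := hnc h.w1a
  have kw2 : κ w2 ≠ κ a := by rw [kab]; exact hnc h.w2b
  have n1 : c ≠ y := h.yc.ne.symm
  have n2 : c ≠ w1 := fun hh => kw1 (by rw [← hh, kac])
  have n3 : c ≠ w2 := fun hh => kw2 (by rw [← hh, kac])
  have n4 : a ≠ y := h.ya.ne.symm
  have n5 : a ≠ w1 := h.w1a.ne.symm
  have n6 : a ≠ w2 := fun hh => kw2 (by rw [← hh])
  have n7 : e ≠ y := fun hh => kya (by rw [← hh, kae])
  have n8 : e ≠ w1 := h.w1e.ne.symm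
  have n9 : e ≠ w2 := h.w2e.ne.symm
  have n10 : g ≠ y := fun hh => kya (by rw [← hh, kag])
  have n11 : g ≠ w1 := h.w1g.ne.symm
  have n12 : g ≠ w2 := h.w2g.ne.symm
  have n13 : b ≠ y := h.yb.ne.symm
  have n14 : b ≠ w1 := fun hh => kw1 (by rw [← hh, kab])
  have n15 : b ≠ w2 := h.w2b.ne.symm
  let φ : Fin 8 → V := ![c, a, e, g, y, w1, w2, b]
  have hφ : Function.Injective φ := by
    intro x z hxy
    by_contra hne
    fin_cases x <;> fin_cases z <;>
      first
        | exact hne rfl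
        | exact h.ca hxy
        | exact h.ce hxy
        | exact h.cg hxy
        | exact n1 hxy
        | exact n2 hxy
        | exact n3 hxy
        | exact h.cb hxy
        | exact h.ae hxy
        | exact h.ag hxy
        | exact n4 hxy
        | exact n5 hxy
        | exact n6 hxy
        | exact h.ab hxy
        | exact h.eg hxy
        | exact n7 hxy
        | exact n8 hxy
        | exact n9 hxy
        | exact h.be hxy.symm
        | exact n10 hxy
        | exact n11 hxy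
        | exact n12 hxy
        | exact h.bg hxy.symm
        | exact h.yw1 hxy
        | exact h.yw2 hxy
        | exact n13 hxy.symm
        | exact h.ww hxy
        | exact n14 hxy.symm
        | exact n15 hxy.symm
        | exact h.ca hxy.symm
        | exact h.ce hxy.symm
        | exact h.cg hxy.symm
        | exact n1 hxy.symm
        | exact n2 hxy.symm
        | exact n3 hxy.symm
        | exact h.cb hxy.symm
        | exact h.ae hxy.symm
        | exact h.ag hxy.symm
        | exact n4 hxy.symm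
        | exact n5 hxy.symm
        | exact n6 hxy.symm
        | exact h.ab hxy.symm
        | exact h.eg hxy.symm
        | exact n7 hxy.symm
        | exact n8 hxy.symm
        | exact n9 hxy.symm
        | exact h.be hxy
        | exact n10 hxy.symm
        | exact n11 hxy.symm
        | exact n12 hxy.symm
        | exact h.bg hxy
        | exact h.yw1 hxy.symm
        | exact h.yw2 hxy.symm
        | exact n13 hxy
        | exact h.ww hxy.symm
        | exact n14 hxy
        | exact n15 hxy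
  have hadj : ∀ x z, L8.Adj x z → Z.Adj (φ x) (φ z) := by
    intro x z hxy
    fin_cases x <;> fin_cases z <;>
      first
        | exact absurd hxy (by decide)
        | exact h.ya
        | exact h.yb
        | exact h.yc
        | exact h.w1a
        | exact h.w1e
        | exact h.w1g
        | exact h.w2b
        | exact h.w2e
        | exact h.w2g
        | exact h.ya.symm
        | exact h.yb.symm
        | exact h.yc.symm
        | exact h.w1a.symm
        | exact h.w1e.symm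
        | exact h.w1g.symm
        | exact h.w2b.symm
        | exact h.w2e.symm
        | exact h.w2g.symm
  have hFQ : ∀ i, φ i ∈ F ∪ Q := by
    intro i
    fin_cases i
    · exact hc
    · exact ha
    · exact he
    · exact hg
    · exact hy
    · exact hw1
    · exact hw2
    · exact hb
  have hv : ∀ x z : Fin 8, κ (φ x) = κ (φ z) →
      vl (fun _ : Fin 8 => (0 : ZMod 2)) x z = vl κ (φ x) (φ z) := by
    intro x z hxz
    rw [vl_eq_of_eq hxz]
    rfl
  refine ⟨?_, ?_, ?_⟩
  · exact loc_of_fin (K := L8) (κ0 := fun _ => 0) (a := 0) (b := 1) (u := 2) (v := 3)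
      hZ φ hφ hadj (by decide) (by decide) (hv 0 1 kac) (hv 2 3 (kae.symm.trans kag))
      (Frame.of_c0 (by decide) (by decide) tok_L8_1) hFQ
  · exact loc_of_fin (K := L8) (κ0 := fun _ => 0) (a := 0) (b := 2) (u := 1) (v := 3)
      hZ φ hφ hadj (by decide) (by decide) (hv 0 2 (kac.trans kae)) (hv 1 3 kag)
      (Frame.of_c0 (by decide) (by decide) tok_L8_2) hFQ
  · exact loc_of_fin (K := L8) (κ0 := fun _ => 0) (a := 0) (b := 3) (u := 1) (v := 2)
      hZ φ hφ hadj (by decide) (by decide) (hv 0 3 (kac.trans kag)) (hv 1 2 kae)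
      (Frame.of_c0 (by decide) (by decide) tok_L8_3) hFQ

end Pool.Agent.Helper1.TD
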