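import Pool.Agent.Helper1.TD.Link

/-!
# Theorem D: the fold at a cubic vertex (field FOLD of `Core`)

`y ∈ S` is cubic with neighbours `p`, `q`, `c` and `q ∈ S`. The fold deletes `y` and identifies
`q` with `p`. We check that the result is a society unless one of the four exits of `Core.FOLD`
holds.
-/

set_option autoImplicit false

namespace Pool.Agent.Helper1.TD

open SimpleGraph Pool.Agent.Helper57.TOK Pool.Agent.Helper57.TD Pool.Agent.Helper82.TK

variable {V : Type*}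

lemma fO_of_proper {Z : SimpleGraph V} {κ : V → ZMod 2} (hZ : Proper Z κ) (Y : Set V) :
    fO Z κ Y = fden Z Y := by
  have : oddG Z κ = Z := by
    ext u v
    rw [oddG_adj]
    exact ⟨fun h => h.1, fun h => ⟨h, hZ u v h⟩⟩
  unfold fO
  rw [this]

/-- Delete the edges inside `T`. -/
def cutT (G : SimpleGraph V) (T : Set V) : SimpleGraph V where
  Adj u v := G.Adj u v ∧ (u ∉ T ∨ v ∉ T)
  symm := ⟨fun _ _ h => ⟨h.1.symm, h.2.symm⟩⟩
  loopless := ⟨fun _ h => h.1.ne rfl⟩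

lemma cutT_adj {G : SimpleGraph V} {T : Set V} {u v : V} :
    (cutT G T).Adj u v ↔ G.Adj u v ∧ (u ∉ T ∨ v ∉ T) := Iff.rfl

lemma Nb_cutT {G : SimpleGraph V} {T Y : Set V} (hY : ∀ x ∈ Y, x ∉ T) :
    Nb (cutT G T) Y = Nb G Y := by
  ext v
  rw [mem_Nb, mem_Nb]
  constructor
  · rintro ⟨h1, u, hu, h2⟩; exact ⟨h1, u, hu, h2.1⟩
  · rintro ⟨h1, u, hu, h2⟩; exact ⟨h1, u, hu, h2, Or.inl (hY u hu)⟩

lemma EAt_cutT {G : SimpleGraph V} {T Y : Set V} (hY : ∀ x ∈ Y, x ∉ T) :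
    EAt (cutT G T) Y = EAt G Y := by
  ext e
  induction e using Sym2.ind with
  | _ u v =>
    rw [mem_EAt, mem_EAt, cutT_adj]
    constructor
    · rintro ⟨h1, h2⟩; exact ⟨h1.1, h2⟩
    · rintro ⟨h1, h2⟩
      refine ⟨⟨h1, ?_⟩, h2⟩
      rcases h2 with h2 | h2
      · exact Or.inl (hY u h2)
      · exact Or.inr (hY v h2)

lemma fden_cutT {G : SimpleGraph V} {T Y : Set V} (hY : ∀ x ∈ Y, x ∉ T) :
    fden (cutT G T) Y = fden G Y := by
  unfold fden rho
  rw [EAt_cutT hY]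

/-! ### The map `q ↦ p` -/

open Classical in
/-- The map which sends `q` to `p` and fixes everything else. -/
noncomputable def sg (p q : V) : V → V := fun x => if x = q then p else x

lemma sg_q (p q : V) : sg p q q = p := if_pos rfl

lemma sg_ne {p q x : V} (h : x ≠ q) : sg p q x = x := if_neg h

lemma sg_col {κ : V → ZMod 2} {p q : V} (hκ : κ p = κ q) (x : V) : κ (sg p q x) = κ x := by
  by_cases h : x = q
  · rw [h, sg_q, hκ]
  · rw [sg_ne h]

lemma mono_sg {κ : V → ZMod 2} {p q : V} (hκ : κ p = κ q) {M : Set V} :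
    Mono κ (sg p q '' M) ↔ Mono κ M := by
  constructor
  · intro h x hx y hy
    have := h _ ⟨x, hx, rfl⟩ _ ⟨y, hy, rfl⟩
    rwa [sg_col hκ, sg_col hκ] at this
  · rintro h _ ⟨x, hx, rfl⟩ _ ⟨y, hy, rfl⟩
    rw [sg_col hκ, sg_col hκ]
    exact h x hx y hy

lemma beta_sg {κ : V → ZMod 2} {p q : V} (hκ : κ p = κ q) (M : Set V) :
    beta κ (sg p q '' M) = beta κ M + (((sg p q '' M).ncard : ℤ) - (M.ncard : ℤ)) := by
  by_cases h : Mono κ M
  · rw [beta_of_mono h, beta_of_mono ((mono_sg hκ).2 h)]; ring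
  · rw [beta_of_not_mono h, beta_of_not_mono (fun hh => h ((mono_sg hκ).1 hh))]; ring

lemma ncard_sg_of_not {p q : V} {M : Set V} (h : ¬ (p ∈ M ∧ q ∈ M)) :
    (sg p q '' M).ncard = M.ncard := by
  apply Set.InjOn.ncard_image
  intro x hx x' hx' hxx
  by_cases h1 : x = q
  · by_cases h2 : x' = q
    · rw [h1, h2]
    · rw [h1, sg_q, sg_ne h2] at hxx
      exact absurd ⟨hxx ▸ hx', h1 ▸ hx⟩ h
  · by_cases h2 : x' = q
    · rw [h2, sg_q, sg_ne h1] at hxx
      exact absurd ⟨hxx ▸ hx, h2 ▸ hx'⟩ h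
    · rwa [sg_ne h1, sg_ne h2] at hxx

lemma sg_image_of_both {p q : V} (hpq : p ≠ q) {M : Set V} (hp : p ∈ M) :
    sg p q '' M = M \ {q} := by
  ext x
  constructor
  · rintro ⟨z, hz, rfl⟩
    by_cases h : z = q
    · rw [h, sg_q]; exact ⟨hp, hpq⟩
    · rw [sg_ne h]; exact ⟨hz, h⟩
  · rintro ⟨h1, h2⟩
    exact ⟨x, h1, sg_ne h2⟩

lemma ncard_sg_of_both [Finite V] {p q : V} (hpq : p ≠ q) {M : Set V} (hp : p ∈ M) (hq : q ∈ M) :
    (sg p q '' M).ncard + 1 = M.ncard := by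
  rw [sg_image_of_both hpq hp]
  exact Set.ncard_sdiff_singleton_add_one hq (Set.toFinite _)

/-! ### The data of a fold -/

/-- The hypotheses on the fold. -/
structure FD (Z : SimpleGraph V) (κ : V → ZMod 2) (S T : Set V) (y p q c : V) : Prop where
  yS : y ∈ S
  qS : q ∈ S
  pq : p ≠ q
  pc : p ≠ c
  qc : q ≠ c
  Ny : Z.neighborSet y = {p, q, c}

section FD

variable {Z : SimpleGraph V} {κ : V → ZMod 2} {S T : Set V} {y p q c : V}

lemma FD.adj_iff (d : FD Z κ S T y p q c) {w : V} : Z.Adj y w ↔ w = p ∨ w = q ∨ w = c := by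
  rw [← SimpleGraph.mem_neighborSet, d.Ny]
  simp only [Set.mem_insert_iff, Set.mem_singleton_iff]

lemma FD.yp (d : FD Z κ S T y p q c) : Z.Adj y p := d.adj_iff.2 (Or.inl rfl)
lemma FD.yq (d : FD Z κ S T y p q c) : Z.Adj y q := d.adj_iff.2 (Or.inr (Or.inl rfl))
lemma FD.yc (d : FD Z κ S T y p q c) : Z.Adj y c := d.adj_iff.2 (Or.inr (Or.inr rfl))

lemma FD.kpq (d : FD Z κ S T y p q c) (hZ : Proper Z κ) : κ p = κ q :=
  eq_of_ne_of_ne (add_eq_one_iff.1 (hZ _ _ d.yp)).symm (add_eq_one_iff.1 (hZ _ _ d.yq)).symm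

lemma FD.npq (d : FD Z κ S T y p q c) (hZ : Proper Z κ) : ¬ Z.Adj p q := fun h =>
  add_eq_one_iff.1 (hZ _ _ h) (d.kpq hZ)

lemma FD.ncard_Ny (d : FD Z κ S T y p q c) : (Z.neighborSet y).ncard = 3 := by
  rw [d.Ny, Set.ncard_insert_of_notMem, Set.ncard_pair d.qc]
  simp only [Set.mem_insert_iff, Set.mem_singleton_iff, not_or]
  exact ⟨d.pq, d.pc⟩

/-- Sets which do not contain the merged vertex: the neighbourhood. -/
lemma FD.nbA (d : FD Z κ S T y p q c) {Y : Set V} (hpY : p ∉ Y) (hqY : q ∉ Y) (hyY : y ∉ Y) :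
    Nb (foldG Z y p q) Y = sg p q '' (Nb Z Y \ {y}) := by
  ext v
  rw [mem_Nb_foldG_of_notMem d.pq d.yp.ne.symm hpY hqY hyY]
  constructor
  · rintro (⟨h1, h2, h3⟩ | ⟨h1, h2⟩)
    · exact ⟨v, ⟨h1, h3⟩, sg_ne h2⟩
    · exact ⟨q, ⟨h2, fun hh => d.yq.ne (Set.mem_singleton_iff.1 hh).symm⟩, by rw [sg_q, h1]⟩
  · rintro ⟨z, ⟨h1, h2⟩, rfl⟩
    by_cases h : z = q
    · rw [h, sg_q]
      exact Or.inr ⟨rfl, h ▸ h1⟩
    · rw [sg_ne h]
      exact Or.inl ⟨h1, h, h2⟩

/-- Sets which do not contain the merged vertex: the density, `c ∉ Y`. -/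
lemma FD.denA [Finite V] (d : FD Z κ S T y p q c) {Y : Set V} (hpY : p ∉ Y) (hqY : q ∉ Y)
    (hyY : y ∉ Y) (hcY : c ∉ Y) :
    fden (foldG Z y p q) Y + (({w | w ∈ Y ∧ Z.Adj p w ∧ Z.Adj q w}).ncard : ℤ) = fden Z Y := by
  have h1 := rho_foldG_of_notMem (G := Z) d.pq d.yp.ne.symm d.yq.ne.symm hpY hqY hyY
  have h2 : {w | w ∈ Y ∧ Z.Adj y w} = ∅ := by
    ext w
    simp only [Set.mem_ofPred_eq, Set.mem_empty_iff_false, iff_false, not_and]
    intro hw hyw
    rcases d.adj_iff.1 hyw with h | h | h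
    · exact hpY (h ▸ hw)
    · exact hqY (h ▸ hw)
    · exact hcY (h ▸ hw)
  rw [h2, Set.ncard_empty, add_zero] at h1
  unfold fden
  have h3 : ((rho (foldG Z y p q) Y : ℤ)) +
      (({w | w ∈ Y ∧ Z.Adj p w ∧ Z.Adj q w}).ncard : ℤ) = (rho Z Y : ℤ) := by exact_mod_cast h1
  linarith

/-- Sets which do not contain the merged vertex: the density, `c ∈ Y`. -/
lemma FD.denA' [Finite V] (d : FD Z κ S T y p q c) {Y : Set V} (hpY : p ∉ Y) (hqY : q ∉ Y)
    (hyY : y ∉ Y) (hcY : c ∈ Y) :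
    fden (foldG Z y p q) Y + (({w | w ∈ Y ∧ Z.Adj p w ∧ Z.Adj q w}).ncard : ℤ) + 1 =
      fden Z Y := by
  have h1 := rho_foldG_of_notMem (G := Z) d.pq d.yp.ne.symm d.yq.ne.symm hpY hqY hyY
  have h2 : {w | w ∈ Y ∧ Z.Adj y w} = {c} := by
    ext w
    simp only [Set.mem_ofPred_eq, Set.mem_singleton_iff]
    constructor
    · rintro ⟨hw, hyw⟩
      rcases d.adj_iff.1 hyw with h | h | h
      · exact absurd (h ▸ hw) hpY
      · exact absurd (h ▸ hw) hqY
      · exact h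
    · rintro rfl
      exact ⟨hcY, d.yc⟩
  rw [h2, Set.ncard_singleton] at h1
  unfold fden
  have h3 : ((rho (foldG Z y p q) Y : ℤ)) +
      (({w | w ∈ Y ∧ Z.Adj p w ∧ Z.Adj q w}).ncard : ℤ) + 1 = (rho Z Y : ℤ) := by
    exact_mod_cast h1
  linarith

/-- Sets which contain the merged vertex: the density. -/
lemma FD.denB [Finite V] (d : FD Z κ S T y p q c) (hZ : Proper Z κ) {Y : Set V} (hpY : p ∈ Y)
    (hqY : q ∉ Y) (hyY : y ∉ Y) :
    fden (foldG Z y p q) Y + (({w | w ≠ y ∧ Z.Adj p w ∧ Z.Adj q w}).ncard : ℤ) =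
      fden Z (insert y (insert q Y)) + 1 := by
  have h1 := rho_foldG_of_mem (G := Z) d.pq d.yp.ne.symm d.yq.ne.symm (d.npq hZ) hpY hqY hyY
  rw [d.ncard_Ny] at h1
  have hy' : y ∉ insert q Y := by
    rintro (h | h)
    · exact d.yq.ne h
    · exact hyY h
  have h2 : (insert y (insert q Y)).ncard = Y.ncard + 2 := by
    rw [Set.ncard_insert_of_notMem hy' (Set.toFinite _),
      Set.ncard_insert_of_notMem hqY (Set.toFinite _)]
  unfold fden
  rw [h2]
  have h3 : ((rho (foldG Z y p q) Y : ℤ)) +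
      (({w | w ≠ y ∧ Z.Adj p w ∧ Z.Adj q w}).ncard : ℤ) + 3 =
      (rho Z (insert y (insert q Y)) : ℤ) := by exact_mod_cast h1
  push_cast
  linarith

/-- The neighbours of a set not containing the merged vertex, first estimates. -/
theorem FD.stepA [Finite V] (d : FD Z κ S T y p q c) (hZ : Proper Z κ)
    (deg3 : ∀ s ∈ S, 3 ≤ (Z.neighborSet s).ncard)
    (P1 : ∀ Y ⊆ S, 2 ≤ Y.ncard → 4 ≤ (Nb Z Y).ncard)
    (P2 : ∀ Y ⊆ S, Y ≠ S → (Nb Z Y).ncard = 4 → fden Z Y ≤ beta κ (Nb Z Y))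
    (hno3 : ¬ ∃ A ⊆ S, (Nb Z A).ncard = 4 ∧ p ∈ Nb Z A ∧ q ∈ Nb Z A ∧ y ∉ A ∧ c ∉ A ∧
      c ∉ Nb Z A ∧ ∀ w ∈ A, ¬ (Z.Adj w p ∧ Z.Adj w q))
    {Y : Set V} (hYS : Y ⊆ S) (hne : Y.Nonempty) (hpY : p ∉ Y) (hqY : q ∉ Y) (hyY : y ∉ Y) :
    2 ≤ (Nb (foldG Z y p q) Y).ncard ∧
    (2 ≤ Y.ncard → 3 ≤ (Nb (foldG Z y p q) Y).ncard ∧
      ((Nb (foldG Z y p q) Y).ncard ≤ 3 →
        fden (foldG Z y p q) Y ≤ beta κ (Nb (foldG Z y p q) Y))) := by
  have hκ := d.kpq hZ
  have hYneS : Y ≠ S := fun hh => hqY (hh ▸ d.qS)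
  have hpos : 0 < Y.ncard := (Set.ncard_pos (Set.toFinite _)).2 hne
  have hn : (2 ≤ Y.ncard → 4 ≤ (Nb Z Y).ncard) ∧ 3 ≤ (Nb Z Y).ncard := by
    refine ⟨P1 Y hYS, ?_⟩
    by_cases h2 : 2 ≤ Y.ncard
    · have := P1 Y hYS h2; omega
    · have h1 : Y.ncard = 1 := by omega
      obtain ⟨s, rfl⟩ := Set.ncard_eq_one.1 h1
      rw [Nb_singleton]
      exact deg3 s (hYS rfl)
  rw [d.nbA hpY hqY hyY]
  have hmnn : (0 : ℤ) ≤ (({w | w ∈ Y ∧ Z.Adj p w ∧ Z.Adj q w}).ncard : ℤ) := Int.natCast_nonneg _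
  have hbs := beta_sg (p := p) (q := q) hκ (Nb Z Y \ {y})
  by_cases hcY : c ∈ Y
  · -- c in Y
    have hyN : y ∈ Nb Z Y := ⟨hyY, c, hcY, d.yc.symm⟩
    have hM : (Nb Z Y \ {y}).ncard + 1 = (Nb Z Y).ncard :=
      Set.ncard_sdiff_singleton_add_one hyN (Set.toFinite _)
    by_cases hboth : p ∈ Nb Z Y ∧ q ∈ Nb Z Y
    · -- both neighbours: use insert y Y
      obtain ⟨hp, hq⟩ := hboth
      have hpM : p ∈ Nb Z Y \ {y} := ⟨hp, fun hh => d.yp.ne (Set.mem_singleton_iff.1 hh).symm⟩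
      have hqM : q ∈ Nb Z Y \ {y} := ⟨hq, fun hh => d.yq.ne (Set.mem_singleton_iff.1 hh).symm⟩
      have hc1 := ncard_sg_of_both d.pq hpM hqM
      have hNb1 : Nb Z (insert y Y) = Nb Z Y \ {y} := by
        ext v
        constructor
        · rintro ⟨h1, u, hu, h2⟩
          have hvy : v ≠ y := fun hh => h1 (Or.inl hh)
          have hvY : v ∉ Y := fun hh => h1 (Or.inr hh)
          rcases hu with hu | hu
          · rw [hu] at h2
            rcases d.adj_iff.1 h2 with h3 | h3 | h3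
            · rw [h3]; exact hpM
            · rw [h3]; exact hqM
            · exact absurd (h3 ▸ hcY) hvY
          · exact ⟨⟨hvY, u, hu, h2⟩, hvy⟩
        · rintro ⟨⟨h1, u, hu, h2⟩, h3⟩
          refine ⟨?_, u, Or.inr hu, h2⟩
          rintro (h | h)
          · exact h3 h
          · exact h1 h
      have hsub1 : insert y Y ⊆ S := Set.insert_subset d.yS hYS
      have hcard1 : 2 ≤ (insert y Y).ncard := by
        rw [Set.ncard_insert_of_notMem hyY (Set.toFinite _)]; omega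
      have h4 := P1 _ hsub1 hcard1
      rw [hNb1] at h4
      refine ⟨by omega, fun _ => ⟨by omega, fun h3 => ?_⟩⟩
      have hneS : insert y Y ≠ S := by
        intro hh
        have : q ∈ insert y Y := hh ▸ d.qS
        rcases this with h5 | h5
        · exact d.yq.ne h5.symm
        · exact hqY h5
      have h5 := P2 _ hsub1 hneS (by rw [hNb1]; omega)
      rw [hNb1, fden_insert Z hyY] at h5
      have h6 : Z.neighborSet y \ Y = {p, q} := by
        ext w
        constructor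
        · rintro ⟨h7, h8⟩
          rcases d.adj_iff.1 h7 with h9 | h9 | h9
          · exact Or.inl h9
          · exact Or.inr h9
          · exact absurd (h9 ▸ hcY) h8
        · rintro (h7 | h7)
          · rw [h7]; exact ⟨d.yp, hpY⟩
          · rw [Set.mem_singleton_iff.1 h7]; exact ⟨d.yq, hqY⟩
      rw [h6, Set.ncard_pair d.pq] at h5
      have h7 := d.denA' hpY hqY hyY hcY
      have hc1' : ((sg p q '' (Nb Z Y \ {y})).ncard : ℤ) + 1 = ((Nb Z Y \ {y}).ncard : ℤ) := by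
        exact_mod_cast hc1
      push_cast at h5
      linarith
    · -- not both
      have hnb : ¬ (p ∈ Nb Z Y \ {y} ∧ q ∈ Nb Z Y \ {y}) := fun hh => hboth ⟨hh.1.1, hh.2.1⟩
      have hc1 := ncard_sg_of_not hnb
      obtain ⟨hn1, hn2⟩ := hn
      refine ⟨by omega, fun h2 => ⟨by have := hn1 h2; omega, fun h3 => ?_⟩⟩
      have h4 := hn1 h2
      have h5 := P2 Y hYS hYneS (by omega)
      have h6 : Nb Z Y = insert y (Nb Z Y \ {y}) := by
        rw [Set.insert_sdiff_singleton, Set.insert_eq_of_mem hyN]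
      have h8 : beta κ (Nb Z Y) ≤ beta κ (Nb Z Y \ {y}) + 1 := by
        have := beta_insert_le (κ := κ) (N := Nb Z Y \ {y}) (x := y)
        rw [← h6] at this
        exact this
      have h7 := d.denA' hpY hqY hyY hcY
      rw [hc1] at hbs
      linarith
  · -- c not in Y
    have hyN : y ∉ Nb Z Y := by
      rintro ⟨-, u, hu, h1⟩
      rcases d.adj_iff.1 h1.symm with h | h | h
      · exact hpY (h ▸ hu)
      · exact hqY (h ▸ hu)
      · exact hcY (h ▸ hu)
    have hM : Nb Z Y \ {y} = Nb Z Y := Set.sdiff_singleton_eq_self hyN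
    rw [hM] at hbs ⊢
    by_cases hboth : p ∈ Nb Z Y ∧ q ∈ Nb Z Y
    · obtain ⟨hp, hq⟩ := hboth
      have hc1 := ncard_sg_of_both d.pq hp hq
      obtain ⟨hn1, hn2⟩ := hn
      refine ⟨by omega, fun h2 => ⟨by have := hn1 h2; omega, fun h3 => ?_⟩⟩
      have h4 := hn1 h2
      have hN4 : (Nb Z Y).ncard = 4 := by omega
      have h5 := P2 Y hYS hYneS hN4
      have h7 := d.denA hpY hqY hyY hcY
      have hc1' : ((sg p q '' (Nb Z Y)).ncard : ℤ) + 1 = ((Nb Z Y).ncard : ℤ) := by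
        exact_mod_cast hc1
      by_contra hcon
      push Not at hcon
      -- then no common neighbour in Y and Y is tight
      have h8 : (({w | w ∈ Y ∧ Z.Adj p w ∧ Z.Adj q w}).ncard : ℤ) = 0 := by
        have h9 : beta κ (sg p q '' Nb Z Y) = beta κ (Nb Z Y) - 1 := by linarith
        have h10 : beta κ (Nb Z Y) ≤ fden (foldG Z y p q) Y := by linarith
        linarith
      have h9 : fden Z Y = beta κ (Nb Z Y) := by
        have h10 : beta κ (sg p q '' Nb Z Y) = beta κ (Nb Z Y) - 1 := by linarith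
        have h11 : beta κ (Nb Z Y) ≤ fden (foldG Z y p q) Y := by linarith
        linarith
      have h10 : {w | w ∈ Y ∧ Z.Adj p w ∧ Z.Adj q w} = ∅ := by
        have h11 : ({w | w ∈ Y ∧ Z.Adj p w ∧ Z.Adj q w}).ncard = 0 := by exact_mod_cast h8
        exact (Set.ncard_eq_zero (Set.toFinite _)).1 h11
      apply hno3
      refine ⟨Y, hYS, hN4, hp, hq, hyY, hcY, ?_, ?_⟩
      · -- c is not a neighbour of Y
        intro hcN
        have hNb1 : Nb Z (insert y Y) = Nb Z Y := by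
          ext v
          constructor
          · rintro ⟨h1, u, hu, h2⟩
            have hvY : v ∉ Y := fun hh => h1 (Or.inr hh)
            rcases hu with hu | hu
            · rw [hu] at h2
              rcases d.adj_iff.1 h2 with h3 | h3 | h3
              · rw [h3]; exact hp
              · rw [h3]; exact hq
              · rw [h3]; exact hcN
            · exact ⟨hvY, u, hu, h2⟩
          · rintro ⟨h1, u, hu, h2⟩
            refine ⟨?_, u, Or.inr hu, h2⟩
            rintro (h | h)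
            · exact hyN (h ▸ ⟨h1, u, hu, h2⟩)
            · exact h1 h
        have hneS : insert y Y ≠ S := by
          intro hh
          have : q ∈ insert y Y := hh ▸ d.qS
          rcases this with h5 | h5
          · exact d.yq.ne h5.symm
          · exact hqY h5
        have h12 := P2 _ (Set.insert_subset d.yS hYS) hneS (by rw [hNb1]; exact hN4)
        rw [hNb1, fden_insert Z hyY] at h12
        have h13 : Z.neighborSet y \ Y = Z.neighborSet y := by
          ext w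
          refine ⟨fun h => h.1, fun h => ⟨h, ?_⟩⟩
          rcases d.adj_iff.1 h with h9 | h9 | h9
          · rw [h9]; exact hpY
          · rw [h9]; exact hqY
          · rw [h9]; exact hcY
        rw [h13, d.ncard_Ny] at h12
        push_cast at h12
        linarith
      · intro w hw hww
        have : w ∈ ({w | w ∈ Y ∧ Z.Adj p w ∧ Z.Adj q w} : Set V) :=
          ⟨hw, hww.1.symm, hww.2.symm⟩
        rw [h10] at this
        exact this
    · have hc1 := ncard_sg_of_not hboth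
      obtain ⟨hn1, hn2⟩ := hn
      refine ⟨by omega, fun h2 => ⟨by have := hn1 h2; omega, fun h3 => ?_⟩⟩
      have := hn1 h2
      omega

/-- Sets containing the merged vertex. -/
theorem FD.stepB [Finite V] (d : FD Z κ S T y p q c) (hZ : Proper Z κ)
    (P1 : ∀ Y ⊆ S, 2 ≤ Y.ncard → 4 ≤ (Nb Z Y).ncard)
    (P2 : ∀ Y ⊆ S, Y ≠ S → (Nb Z Y).ncard = 4 → fden Z Y ≤ beta κ (Nb Z Y))
    (hno4 : ¬ ∃ A ⊆ S, (Nb Z A).ncard = 4 ∧ p ∈ A ∧ q ∈ A ∧ y ∉ A ∧ c ∉ A ∧ c ∉ Nb Z A ∧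
      ∀ w, w ≠ y → ¬ (Z.Adj w p ∧ Z.Adj w q))
    {Y : Set V} (hYS : Y ⊆ S) (hpY : p ∈ Y) (hqY : q ∉ Y) (hyY : y ∉ Y) :
    3 ≤ (Nb (foldG Z y p q) Y).ncard ∧
      ((Nb (foldG Z y p q) Y).ncard ≤ 3 →
        fden (foldG Z y p q) Y ≤ beta κ (Nb (foldG Z y p q) Y)) := by
  have hmem := mem_Nb_foldG_of_mem (G := Z) d.pq d.yp.ne.symm hpY hqY hyY
  have hqy : y ∉ insert q Y := by
    rintro (h | h)
    · exact d.yq.ne h
    · exact hyY h
  have hY0S : insert q Y ⊆ S := Set.insert_subset d.qS hYS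
  have hY2S : insert y (insert q Y) ⊆ S := Set.insert_subset d.yS hY0S
  have hpos : 0 < Y.ncard := (Set.ncard_pos (Set.toFinite _)).2 ⟨p, hpY⟩
  have hc0 : (insert q Y).ncard = Y.ncard + 1 := Set.ncard_insert_of_notMem hqY (Set.toFinite _)
  have hc2 : (insert y (insert q Y)).ncard = Y.ncard + 2 := by
    rw [Set.ncard_insert_of_notMem hqy (Set.toFinite _), hc0]
  have h4 := P1 _ hY2S (by omega)
  have hsub : Nb Z (insert y (insert q Y)) ⊆ insert c (Nb (foldG Z y p q) Y) := by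
    rintro v ⟨h1, u, hu, h2⟩
    have hvy : v ≠ y := fun hh => h1 (Or.inl hh)
    have hv0 : v ∉ insert q Y := fun hh => h1 (Or.inr hh)
    rcases hu with hu | hu
    · rw [hu] at h2
      rcases d.adj_iff.1 h2 with h3 | h3 | h3
      · exact absurd (Or.inr (h3 ▸ hpY)) hv0
      · exact absurd (Or.inl h3) hv0
      · exact Or.inl h3
    · right
      rw [hmem]
      exact ⟨⟨hv0, u, hu, h2⟩, hvy⟩
  by_cases hc : c ∈ Y ∨ c ∈ Nb (foldG Z y p q) Y
  · have hsub' : Nb Z (insert y (insert q Y)) ⊆ Nb (foldG Z y p q) Y := by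
      intro v hv
      rcases hsub hv with h1 | h1
      · rcases hc with hc | hc
        · exact absurd (Or.inr (Or.inr (h1 ▸ hc))) hv.1
        · rw [h1]; exact hc
      · exact h1
    have h5 := Set.ncard_le_ncard hsub' (Set.toFinite _)
    exact ⟨by omega, fun h6 => by omega⟩
  · push Not at hc
    have h5 := Set.ncard_le_ncard hsub (Set.toFinite _)
    have h6 := Set.ncard_insert_le c (Nb (foldG Z y p q) Y)
    refine ⟨by omega, fun h7 => ?_⟩
    have hN1 : Nb Z (insert q Y) = insert y (Nb (foldG Z y p q) Y) := by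
      ext v
      constructor
      · intro hv
        by_cases hvy : v = y
        · exact Or.inl hvy
        · right; rw [hmem]; exact ⟨hv, hvy⟩
      · rintro (hv | hv)
        · rw [hv]
          exact ⟨hqy, q, Or.inl rfl, d.yq.symm⟩
        · rw [hmem] at hv
          exact hv.1
    have hyN' : y ∉ Nb (foldG Z y p q) Y := by
      rw [hmem]
      exact fun hh => hh.2 rfl
    have hN1c : (Nb Z (insert q Y)).ncard = 4 := by
      rw [hN1, Set.ncard_insert_of_notMem hyN' (Set.toFinite _)]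
      omega
    have hneS : insert q Y ≠ S := fun hh => hqy (hh ▸ d.yS)
    have h8 := P2 _ hY0S hneS hN1c
    have h9 : beta κ (Nb Z (insert q Y)) ≤ beta κ (Nb (foldG Z y p q) Y) + 1 := by
      rw [hN1]; exact beta_insert_le
    have h10 := d.denB hZ hpY hqY hyY
    have h11 : fden Z (insert y (insert q Y)) = fden Z (insert q Y) - 1 := by
      rw [fden_insert Z hqy]
      have h12 : Z.neighborSet y \ insert q Y = {c} := by
        ext w
        constructor
        · rintro ⟨h13, h14⟩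
          rcases d.adj_iff.1 h13 with h15 | h15 | h15
          · exact absurd (Or.inr (h15 ▸ hpY)) h14
          · exact absurd (Or.inl h15) h14
          · exact h15
        · intro h13
          rw [Set.mem_singleton_iff.1 h13]
          refine ⟨d.yc, ?_⟩
          rintro (h | h)
          · exact d.qc h.symm
          · exact hc.1 h
      rw [h12, Set.ncard_singleton]
      push_cast
      ring
    have hnn : (0 : ℤ) ≤ (({w | w ≠ y ∧ Z.Adj p w ∧ Z.Adj q w}).ncard : ℤ) :=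
      Int.natCast_nonneg _
    by_contra hcon
    push Not at hcon
    have h12 : (({w | w ≠ y ∧ Z.Adj p w ∧ Z.Adj q w}).ncard : ℤ) = 0 := by linarith
    have h13 : {w | w ≠ y ∧ Z.Adj p w ∧ Z.Adj q w} = ∅ := by
      have h14 : ({w | w ≠ y ∧ Z.Adj p w ∧ Z.Adj q w}).ncard = 0 := by exact_mod_cast h12
      exact (Set.ncard_eq_zero (Set.toFinite _)).1 h14
    apply hno4
    refine ⟨insert q Y, hY0S, hN1c, Or.inr hpY, Or.inl rfl, hqy, ?_, ?_, ?_⟩
    · rintro (h | h)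
      · exact d.qc h.symm
      · exact hc.1 h
    · intro h14
      rw [hN1] at h14
      rcases h14 with h14 | h14
      · exact d.yc.ne h14.symm
      · exact hc.2 h14
    · intro w hwy hww
      have : w ∈ ({w | w ≠ y ∧ Z.Adj p w ∧ Z.Adj q w} : Set V) :=
        ⟨hwy, hww.1.symm, hww.2.symm⟩
      rw [h13] at this
      exact this

/-- The density of the whole fold. -/
theorem FD.stepM [Finite V] (d : FD Z κ S T y p q c) (h : Bas Z S T) (hZ : Proper Z κ)
    (hno1 : ¬ ∃ z1 z2, z1 ≠ z2 ∧ z1 ≠ y ∧ z2 ≠ y ∧ Z.Adj p z1 ∧ Z.Adj q z1 ∧ Z.Adj p z2 ∧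
      Z.Adj q z2)
    (hno2 : ¬ (p ∈ T ∧ ∃ t ∈ T, Z.Adj q t)) :
    fden Z S ≤ fden (foldG Z y p q) (S \ {y, q}) := by
  have hcod : ({w | w ≠ y ∧ Z.Adj p w ∧ Z.Adj q w}).ncard ≤ 1 := by
    rw [Set.ncard_le_one (Set.toFinite _)]
    rintro z1 ⟨g1, g2, g3⟩ z2 ⟨g4, g5, g6⟩
    by_contra hne
    exact hno1 ⟨z1, z2, hne, g1, g4, g2, g3, g5, g6⟩
  have hyq : y ≠ q := d.yq.ne
  have hpST : p ∈ S ∪ T := h.edge_mem p y d.yp.symm
  have hyS' : y ∉ S \ {y, q} := fun hh => hh.2 (Or.inl rfl)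
  have hqS' : q ∉ S \ {y, q} := fun hh => hh.2 (Or.inr rfl)
  have hyS2 : y ∉ insert q (S \ {y, q}) := by
    rintro (h1 | h1)
    · exact hyq h1
    · exact hyS' h1
  have hSeq : insert y (insert q (S \ {y, q})) = S := by
    ext x
    simp only [Set.mem_insert_iff, Set.mem_sdiff, Set.mem_singleton_iff, not_or]
    constructor
    · rintro (h1 | h1 | h1)
      · rw [h1]; exact d.yS
      · rw [h1]; exact d.qS
      · exact h1.1
    · intro h1
      by_cases h2 : x = y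
      · exact Or.inl h2
      · by_cases h3 : x = q
        · exact Or.inr (Or.inl h3)
        · exact Or.inr (Or.inr ⟨h1, h2, h3⟩)
  by_cases hpS : p ∈ S
  · have hpS' : p ∈ S \ {y, q} := ⟨hpS, by
      rintro (h1 | h1)
      · exact d.yp.ne h1.symm
      · exact d.pq h1⟩
    have h1 := d.denB hZ hpS' hqS' hyS'
    rw [hSeq] at h1
    have hcod' : (({w | w ≠ y ∧ Z.Adj p w ∧ Z.Adj q w}).ncard : ℤ) ≤ 1 := by exact_mod_cast hcod
    linarith
  · have hpT : p ∈ T := by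
      rcases hpST with h1 | h1
      · exact absurd h1 hpS
      · exact h1
    have hpS' : p ∉ S \ {y, q} := fun hh => hpS hh.1
    have hqT : ∀ t ∈ T, ¬ Z.Adj q t := fun t ht hqt => hno2 ⟨hpT, t, ht, hqt⟩
    have h1 : fden Z (insert q (S \ {y, q})) = fden Z (S \ {y, q}) + 1 - 2 := by
      rw [fden_insert Z hqS']
      have h2 : Z.neighborSet q \ (S \ {y, q}) = {y} := by
        ext w
        constructor
        · rintro ⟨h3, h4⟩
          have h3' : Z.Adj q w := h3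
          rcases h.edge_mem w q h3'.symm with h5 | h5
          · by_contra hne
            apply h4
            refine ⟨h5, ?_⟩
            rintro (h6 | h6)
            · exact hne h6
            · exact h3'.ne (Set.mem_singleton_iff.1 h6).symm
          · exact absurd h3' (hqT w h5)
        · intro h3
          rw [Set.mem_singleton_iff.1 h3]
          exact ⟨d.yq.symm, hyS'⟩
      rw [h2, Set.ncard_singleton]
      push_cast
      ring
    have hmle : ({w | w ∈ S \ {y, q} ∧ Z.Adj p w ∧ Z.Adj q w}).ncard ≤ 1 := by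
      refine le_trans (Set.ncard_le_ncard ?_ (Set.toFinite _)) hcod
      rintro w ⟨g1, g2, g3⟩
      exact ⟨fun hh => g1.2 (Or.inl hh), g2, g3⟩
    have hmle' : (({w | w ∈ S \ {y, q} ∧ Z.Adj p w ∧ Z.Adj q w}).ncard : ℤ) ≤ 1 := by
      exact_mod_cast hmle
    have h2 : fden Z S = fden Z (insert q (S \ {y, q})) +
        ((Z.neighborSet y \ insert q (S \ {y, q})).ncard : ℤ) - 2 := by
      conv_lhs => rw [← hSeq]
      exact fden_insert Z hyS2
    have hpS2 : p ∉ insert q (S \ {y, q}) := by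
      rintro (h3 | h3)
      · exact d.pq h3
      · exact hpS' h3
    by_cases hcS : c ∈ S
    · have hcS' : c ∈ S \ {y, q} := ⟨hcS, by
        rintro (h3 | h3)
        · exact d.yc.ne h3.symm
        · exact d.qc (Set.mem_singleton_iff.1 h3).symm⟩
      have h3 : Z.neighborSet y \ insert q (S \ {y, q}) = {p} := by
        ext w
        constructor
        · rintro ⟨h4, h5⟩
          rcases d.adj_iff.1 h4 with h6 | h6 | h6
          · exact h6
          · exact absurd (Or.inl h6) h5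
          · exact absurd (Or.inr (h6 ▸ hcS')) h5
        · intro h4
          rw [Set.mem_singleton_iff.1 h4]
          exact ⟨d.yp, hpS2⟩
      rw [h3, Set.ncard_singleton] at h2
      have h4 := d.denA' hpS' hqS' hyS' hcS'
      push_cast at h2
      linarith
    · have hcS' : c ∉ S \ {y, q} := fun hh => hcS hh.1
      have hcS2 : c ∉ insert q (S \ {y, q}) := by
        rintro (h3 | h3)
        · exact d.qc h3.symm
        · exact hcS' h3
      have h3 : Z.neighborSet y \ insert q (S \ {y, q}) = {p, c} := by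
        ext w
        constructor
        · rintro ⟨h4, h5⟩
          rcases d.adj_iff.1 h4 with h6 | h6 | h6
          · exact Or.inl h6
          · exact absurd (Or.inl h6) h5
          · exact Or.inr h6
        · rintro (h4 | h4)
          · rw [h4]; exact ⟨d.yp, hpS2⟩
          · rw [Set.mem_singleton_iff.1 h4]; exact ⟨d.yc, hcS2⟩
      rw [h3, Set.ncard_pair d.pc] at h2
      have h4 := d.denA hpS' hqS' hyS' hcS'
      push_cast at h2
      linarith

end FD

/-- What the fold keeps. -/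
structure Kept (Z' : SimpleGraph V) (κ : V → ZMod 2) (S' T : Set V) : Prop where
  bas : Bas Z' S' T
  prop : Proper Z' κ
  M2 : ∀ Y ⊆ S', Y.Nonempty → (Nb Z' Y).ncard ≤ 3 → fO Z' κ Y ≤ beta κ (Nb Z' Y)
  C1 : ∀ s ∈ S', 2 ≤ (Z'.neighborSet s).ncard
  C2 : ∀ Y ⊆ S', 2 ≤ Y.ncard → 3 ≤ (Nb Z' Y).ncard

/-- An unblocked fold has all properties of a society, and the density does not go down. -/
theorem fold_kept [Finite V] {Z : SimpleGraph V} {κ : V → ZMod 2} {S T : Set V} {y p q c : V}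
    (d : FD Z κ S T y p q c)
    (h : Bas Z S T) (hZ : Proper Z κ)
    (deg3 : ∀ s ∈ S, 3 ≤ (Z.neighborSet s).ncard)
    (P1 : ∀ Y ⊆ S, 2 ≤ Y.ncard → 4 ≤ (Nb Z Y).ncard)
    (P2 : ∀ Y ⊆ S, Y ≠ S → (Nb Z Y).ncard = 4 → fden Z Y ≤ beta κ (Nb Z Y))
    (hno1 : ¬ ∃ z1 z2, z1 ≠ z2 ∧ z1 ≠ y ∧ z2 ≠ y ∧ Z.Adj p z1 ∧ Z.Adj q z1 ∧ Z.Adj p z2 ∧
      Z.Adj q z2)
    (hno2 : ¬ (p ∈ T ∧ ∃ t ∈ T, Z.Adj q t))
    (hno3 : ¬ ∃ A ⊆ S, (Nb Z A).ncard = 4 ∧ p ∈ Nb Z A ∧ q ∈ Nb Z A ∧ y ∉ A ∧ c ∉ A ∧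
      c ∉ Nb Z A ∧ ∀ w ∈ A, ¬ (Z.Adj w p ∧ Z.Adj w q))
    (hno4 : ¬ ∃ A ⊆ S, (Nb Z A).ncard = 4 ∧ p ∈ A ∧ q ∈ A ∧ y ∉ A ∧ c ∉ A ∧ c ∉ Nb Z A ∧
      ∀ w, w ≠ y → ¬ (Z.Adj w p ∧ Z.Adj w q)) :
    Kept (cutT (foldG Z y p q) T) κ (S \ {y, q}) T ∧
      fO Z κ S ≤ fO (cutT (foldG Z y p q) T) κ (S \ {y, q}) := by
  have hκ := d.kpq hZ
  have hSS : S \ {y, q} ⊆ S := Set.sdiff_subset
  have hST : ∀ x ∈ S, x ∉ T := fun x hx => Set.disjoint_left.1 h.disj hx
  have hpST : p ∈ S ∪ T := h.edge_mem p y d.yp.symm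
  have hG'prop : Proper (foldG Z y p q) κ := by
    intro u v huv
    obtain ⟨-, -, -, -, -, g6⟩ := foldG_adj.1 huv
    rcases g6 with g6 | ⟨g6, g7⟩ | ⟨g6, g7⟩
    · exact hZ u v g6
    · rw [g6, hκ]; exact hZ q v g7
    · rw [g6, hκ, add_comm]; exact hZ q u g7
  have hZ'prop : Proper (cutT (foldG Z y p q) T) κ := fun u v huv => hG'prop u v huv.1
  have hvert : ∀ u v, (foldG Z y p q).Adj u v → u ∈ (S \ {y, q}) ∪ T := by
    intro u v huv
    obtain ⟨-, g2, -, g4, -, g6⟩ := foldG_adj.1 huv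
    have huST : u ∈ S ∪ T := by
      rcases g6 with g6 | ⟨g6, -⟩ | ⟨-, g7⟩
      · exact h.edge_mem u v g6
      · rw [g6]; exact hpST
      · exact h.edge_mem u q g7.symm
    rcases huST with h1 | h1
    · left
      refine ⟨h1, ?_⟩
      rintro (h2 | h2)
      · exact g2 h2
      · exact g4 h2
    · exact Or.inr h1
  have hcases : ∀ Y ⊆ S \ {y, q}, Y.Nonempty →
      2 ≤ (Nb (foldG Z y p q) Y).ncard ∧
      (2 ≤ Y.ncard → 3 ≤ (Nb (foldG Z y p q) Y).ncard ∧
        ((Nb (foldG Z y p q) Y).ncard ≤ 3 →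
          fden (foldG Z y p q) Y ≤ beta κ (Nb (foldG Z y p q) Y))) := by
    intro Y hY hne
    have hYS : Y ⊆ S := hY.trans hSS
    have hqY : q ∉ Y := fun hh => (hY hh).2 (Or.inr rfl)
    have hyY : y ∉ Y := fun hh => (hY hh).2 (Or.inl rfl)
    by_cases hpY : p ∈ Y
    · obtain ⟨h1, h2⟩ := d.stepB hZ P1 P2 hno4 hYS hpY hqY hyY
      exact ⟨by omega, fun _ => ⟨h1, h2⟩⟩
    · exact d.stepA hZ deg3 P1 P2 hno3 hYS hne hpY hqY hyY
  have hYT : ∀ Y ⊆ S \ {y, q}, ∀ x ∈ Y, x ∉ T := fun Y hY x hx => hST x (hY hx).1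
  refine ⟨
    { bas :=
        { T4 := h.T4
          disj := h.disj.mono_left hSS
          edge_mem := fun u v huv => hvert u v huv.1
          edge_S := by
            intro u v huv
            rcases hvert u v huv.1 with h1 | h1
            · exact Or.inl h1
            · rcases hvert v u huv.1.symm with h2 | h2
              · exact Or.inr h2
              · rcases huv.2 with h3 | h3
                · exact absurd h1 h3
                · exact absurd h2 h3 }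
      prop := hZ'prop
      M2 := by
        intro Y hY hne h3
        by_cases h2 : 2 ≤ Y.ncard
        · rw [Nb_cutT (hYT Y hY)] at h3 ⊢
          rw [fO_of_proper hZ'prop, fden_cutT (hYT Y hY)]
          exact ((hcases Y hY hne).2 h2).2 h3
        · have hpos : 0 < Y.ncard := (Set.ncard_pos (Set.toFinite _)).2 hne
          have h1 : Y.ncard = 1 := by omega
          obtain ⟨s, rfl⟩ := Set.ncard_eq_one.1 h1
          apply fO_singleton_le
          have h4 := (hcases {s} hY hne).1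
          rw [← Nb_cutT (hYT {s} hY), Nb_singleton] at h4
          rw [← Set.ncard_pos (Set.toFinite _)]
          omega
      C1 := by
        intro s hs
        have hsub : ({s} : Set V) ⊆ S \ {y, q} := Set.singleton_subset_iff.2 hs
        have h4 := (hcases {s} hsub ⟨s, rfl⟩).1
        rwa [← Nb_cutT (hYT {s} hsub), Nb_singleton] at h4
      C2 := by
        intro Y hY h2
        have hne : Y.Nonempty := by
          rw [← Set.ncard_pos (Set.toFinite _)]; omega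
        rw [Nb_cutT (hYT Y hY)]
        exact ((hcases Y hY hne).2 h2).1 }, ?_⟩
  rw [fO_of_proper hZ'prop, fden_cutT (hYT _ subset_rfl), fO_of_proper hZ]
  exact d.stepM h hZ hno1 hno2

/-- The number of inner vertices goes down. -/
lemma fold_smaller [Finite V] {S : Set V} {y q : V} (hy : y ∈ S) :
    (S \ {y, q}).ncard < S.ncard := by
  apply Set.ncard_lt_ncard _ (Set.toFinite _)
  refine ⟨Set.sdiff_subset, fun hh => ?_⟩
  exact (hh hy).2 (Or.inl rfl)

/-- The field FOLD of `Core`, from: an unblocked fold is impossible. -/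
theorem core_FOLD [Finite V] {Z : SimpleGraph V} {κ : V → ZMod 2} {S T : Set V}
    (h : Bas Z S T) (hZ : Proper Z κ)
    (deg3 : ∀ s ∈ S, 3 ≤ (Z.neighborSet s).ncard)
    (P1 : ∀ Y ⊆ S, 2 ≤ Y.ncard → 4 ≤ (Nb Z Y).ncard)
    (P2 : ∀ Y ⊆ S, Y ≠ S → (Nb Z Y).ncard = 4 → fden Z Y ≤ beta κ (Nb Z Y))
    (hfalse : ∀ y p q, y ∈ S → q ∈ S → p ≠ q → Z.Adj y p → Z.Adj y q → κ p = κ q →
      Kept (cutT (foldG Z y p q) T) κ (S \ {y, q}) T →
      fO Z κ S ≤ fO (cutT (foldG Z y p q) T) κ (S \ {y, q}) → False) :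
    ∀ y p q c, y ∈ S → q ∈ S → p ≠ q → p ≠ c → q ≠ c → Z.neighborSet y = {p, q, c} →
    (∃ z1 z2, z1 ≠ z2 ∧ z1 ≠ y ∧ z2 ≠ y ∧ Z.Adj p z1 ∧ Z.Adj q z1 ∧ Z.Adj p z2 ∧ Z.Adj q z2) ∨
    (p ∈ T ∧ ∃ t ∈ T, Z.Adj q t) ∨
    (∃ A ⊆ S, (Nb Z A).ncard = 4 ∧ p ∈ Nb Z A ∧ q ∈ Nb Z A ∧ y ∉ A ∧ c ∉ A ∧ c ∉ Nb Z A ∧
      ∀ w ∈ A, ¬ (Z.Adj w p ∧ Z.Adj w q)) ∨
    (∃ A ⊆ S, (Nb Z A).ncard = 4 ∧ p ∈ A ∧ q ∈ A ∧ y ∉ A ∧ c ∉ A ∧ c ∉ Nb Z A ∧
      ∀ w, w ≠ y → ¬ (Z.Adj w p ∧ Z.Adj w q)) := by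
  intro y p q c hy hq hpq hpc hqc hN
  by_contra hcon
  rw [not_or, not_or, not_or] at hcon
  obtain ⟨hno1, hno2, hno3, hno4⟩ := hcon
  have d : FD Z κ S T y p q c := ⟨hy, hq, hpq, hpc, hqc, hN⟩
  obtain ⟨h1, h2⟩ := fold_kept d h hZ deg3 P1 P2 hno1 hno2 hno3 hno4
  exact hfalse y p q hy hq hpq d.yp d.yq (d.kpq hZ) h1 h2

end Pool.Agent.Helper1.TD
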