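import Pool.Agent.Helper57.TD.Rep
import Pool.Agent.Helper73.TD.Goal

/-!
# Theorem D, reduction R2: no inner vertex with exactly two neighbours
-/

set_option autoImplicit false

namespace Pool.Agent.Helper1.TD

open SimpleGraph Pool.Agent.Helper57.TOK Pool.Agent.Helper57.TD Pool.Agent.Helper82.TK

variable {V : Type*}

/-- Sets of vertices with at most two neighbours have `fO ≤ 0`. -/
lemma fO_nonpos [Finite V] {Z : SimpleGraph V} {κ : V → ZMod 2} {Y : Set V}
    (h : ∀ y ∈ Y, (Z.neighborSet y).ncard ≤ 2) : fO Z κ Y ≤ 0 := by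
  induction Y, Set.toFinite Y using Set.Finite.induction_on with
  | empty =>
    unfold fO
    rw [fden_empty]
  | @insert a s ha _ ih =>
    rw [fO_insert ha]
    have h1 := ih (fun y hy => h y (Or.inr hy))
    have h2 : ({w | Z.Adj a w ∧ κ a + κ w = 1 ∧ w ∉ s}).ncard ≤ 2 := by
      refine le_trans (Set.ncard_le_ncard ?_ (Set.toFinite _)) (h a (Or.inl rfl))
      intro w hw
      exact hw.1
    have h3 : (({w | Z.Adj a w ∧ κ a + κ w = 1 ∧ w ∉ s}).ncard : ℤ) ≤ 2 := by exact_mod_cast h2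
    linarith

lemma fO_insert_del [Finite V] (Z : SimpleGraph V) (κ : V → ZMod 2) {s : V} {Y : Set V}
    (hs : s ∉ Y) : fO Z κ (insert s Y) = fO (delG Z {s}) κ Y + fO Z κ {s} := by
  have h := fO_union_del Z κ (A := Y) (W := {s}) (by
    rw [Set.disjoint_left]
    rintro x hx hxs
    rw [Set.mem_singleton_iff] at hxs
    exact hs (hxs ▸ hx))
  rw [Set.union_singleton] at h
  exact h

lemma Nb_del {Z : SimpleGraph V} {s : V} {Y : Set V} (hs : s ∉ Y) :
    Nb (delG Z {s}) Y = Nb Z Y \ {s} := by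
  ext v
  constructor
  · rintro ⟨h1, u, hu, h2, -, h3⟩
    exact ⟨⟨h1, u, hu, h2⟩, h3⟩
  · rintro ⟨⟨h1, u, hu, h2⟩, h3⟩
    refine ⟨h1, u, hu, h2, ?_, h3⟩
    intro h
    rw [Set.mem_singleton_iff] at h
    exact hs (h ▸ hu)

/-- One neighbour of `s` in `Y`, the edge is odd: the count. -/
lemma fO_one [Finite V] {Z : SimpleGraph V} {κ : V → ZMod 2} {s p q : V} {Y : Set V}
    (hs : s ∉ Y) (hN : Z.neighborSet s = {p, q}) (hp : p ∈ Y) (hq : q ∉ Y)
    (hodd : κ s + κ p = 1) : fO Z κ Y = fO (delG Z {s}) κ Y + 1 := by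
  have h1 := fO_insert_del Z κ hs
  rw [fO_insert hs, fO_singleton] at h1
  have hadj : ∀ w, Z.Adj s w ↔ w = p ∨ w = q := by
    intro w
    rw [← SimpleGraph.mem_neighborSet, hN]
    simp only [Set.mem_insert_iff, Set.mem_singleton_iff]
  have h2 : {w | Z.Adj s w ∧ κ s + κ w = 1} =
      insert p {w | Z.Adj s w ∧ κ s + κ w = 1 ∧ w ∉ Y} := by
    ext w
    simp only [Set.mem_ofPred_eq, Set.mem_insert_iff]
    constructor
    · rintro ⟨g1, g2⟩
      rcases (hadj w).1 g1 with g3 | g3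
      · exact Or.inl g3
      · right; exact ⟨g1, g2, by rw [g3]; exact hq⟩
    · rintro (g1 | ⟨g1, g2, -⟩)
      · rw [g1]; exact ⟨(hadj p).2 (Or.inl rfl), hodd⟩
      · exact ⟨g1, g2⟩
  have h3 : p ∉ {w | Z.Adj s w ∧ κ s + κ w = 1 ∧ w ∉ Y} := fun h => h.2.2 hp
  rw [h2, Set.ncard_insert_of_notMem h3 (Set.toFinite _)] at h1
  push_cast at h1
  linarith

section R2

variable {md : Bool} {Z : SimpleGraph V} {κ : V → ZMod 2} {S T : Set V} {s p q : V}

/-- A set with an inner edge has at least four neighbours. -/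
lemma four_of_adj (hI : ∀ Y ⊆ S, 2 ≤ Y.ncard → (Nb Z Y).ncard ≤ 3 → ∀ s ∈ Y,
      (Z.neighborSet s).ncard = 2 ∧ ∀ s' ∈ Y, ¬ Z.Adj s s')
    [Finite V] {X : Set V} (hX : X ⊆ S) {x y : V} (hx : x ∈ X) (hy : y ∈ X) (hxy : Z.Adj x y) :
    4 ≤ (Nb Z X).ncard := by
  by_contra hcon
  have h2 : 2 ≤ X.ncard := by
    have h1 : ({x, y} : Set V) ⊆ X := by
      intro w hw
      simp only [Set.mem_insert_iff, Set.mem_singleton_iff] at hw
      rcases hw with rfl | rfl
      · exact hx
      · exact hy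
    have h2 := Set.ncard_le_ncard h1 (Set.toFinite _)
    rwa [Set.ncard_pair hxy.ne] at h2
  exact (hI X hX h2 (by omega) x hx).2 y hy hxy

/-- The main case of R2: exactly one neighbour of `s` in `Y`. -/
theorem r2_one [Finite V] (hM : MinCE md Z κ S T)
    (hI : ∀ Y ⊆ S, 2 ≤ Y.ncard → (Nb Z Y).ncard ≤ 3 → ∀ s ∈ Y,
      (Z.neighborSet s).ncard = 2 ∧ ∀ s' ∈ Y, ¬ Z.Adj s s')
    (hsS : s ∈ S) (hN : Z.neighborSet s = {p, q})
    {Y : Set V} (hYS : Y ⊆ S) (hsY : s ∉ Y) (hp : p ∈ Y) (hq : q ∉ Y) :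
    3 ≤ (Nb (delG Z {s}) Y).ncard ∧ ((Nb (delG Z {s}) Y).ncard ≤ 3 →
      fO (delG Z {s}) κ Y ≤ beta κ (Nb (delG Z {s}) Y)) := by
  classical
  have hadj : ∀ w, Z.Adj s w ↔ w = p ∨ w = q := by
    intro w
    rw [← SimpleGraph.mem_neighborSet, hN]
    simp only [Set.mem_insert_iff, Set.mem_singleton_iff]
  have hsp : Z.Adj s p := (hadj p).2 (Or.inl rfl)
  have hsq : Z.Adj s q := (hadj q).2 (Or.inr rfl)
  have h4 : 4 ≤ (Nb Z (insert s Y)).ncard :=
    four_of_adj hI (Set.insert_subset hsS hYS) (Or.inl rfl) (Or.inr hp) hsp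
  have hsub : Nb Z (insert s Y) ⊆ insert q (Nb (delG Z {s}) Y) := by
    rintro v ⟨h1, u, hu, h2⟩
    have hvs : v ≠ s := fun hh => h1 (Or.inl hh)
    have hvY : v ∉ Y := fun hh => h1 (Or.inr hh)
    rcases hu with hu | hu
    · rw [hu] at h2
      rcases (hadj v).1 h2 with h3 | h3
      · exact absurd (h3 ▸ hp) hvY
      · exact Or.inl h3
    · right
      rw [Nb_del hsY]
      exact ⟨⟨hvY, u, hu, h2⟩, hvs⟩
  have h5 := Set.ncard_le_ncard hsub (Set.toFinite _)
  have h6 := Set.ncard_insert_le q (Nb (delG Z {s}) Y)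
  refine ⟨by omega, fun h7 => ?_⟩
  by_contra hcon
  push Not at hcon
  have hYne : Y.Nonempty := ⟨p, hp⟩
  -- at least two vertices
  have hY2 : 2 ≤ Y.ncard := by
    by_contra hlt
    have hpos : 0 < Y.ncard := (Set.ncard_pos (Set.toFinite _)).2 hYne
    have h1 : Y.ncard = 1 := by omega
    obtain ⟨x, rfl⟩ := Set.ncard_eq_one.1 h1
    have h8 : ((delG Z {s}).neighborSet x).Nonempty := by
      rw [← Nb_singleton, ← Set.ncard_pos (Set.toFinite _)]; omega
    have := fO_singleton_le (delG Z {s}) κ x h8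
    linarith
  have hN'3 : (Nb (delG Z {s}) Y).ncard = 3 := by omega
  have hqN : q ∉ Nb (delG Z {s}) Y := by
    intro h
    rw [Set.insert_eq_of_mem h] at h5
    omega
  have hNbY : Nb Z Y = insert s (Nb (delG Z {s}) Y) := by
    rw [Nb_del hsY]
    have : s ∈ Nb Z Y := ⟨hsY, p, hp, hsp.symm⟩
    rw [Set.insert_sdiff_singleton, Set.insert_eq_of_mem this]
  have hsN : s ∉ Nb (delG Z {s}) Y := by
    rw [Nb_del hsY]; exact fun h => h.2 rfl
  have hN4 : (Nb Z Y).ncard = 4 := by
    rw [hNbY, Set.ncard_insert_of_notMem hsN (Set.toFinite _), hN'3]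
  have hYneS : Y ≠ S := fun hh => hsY (hh ▸ hsS)
  have hlink : ∀ X, Y ⊆ X → X ⊆ S → 4 ≤ (Nb Z X).ncard := by
    intro X hYX hXS
    by_contra hlt
    have hX2 : 2 ≤ X.ncard := hY2.trans (Set.ncard_le_ncard hYX (Set.toFinite _))
    have h8 := hI X hXS hX2 (by omega)
    have h9 : Nb Z Y ⊆ Nb Z X := by
      rintro v ⟨-, u, hu, h2⟩
      exact ⟨fun hv => (h8 u (hYX hu)).2 v hv h2, u, hYX hu, h2⟩
    have := Set.ncard_le_ncard h9 (Set.toFinite _)
    omega
  by_cases hodd : κ s + κ p = 1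
  · have h8 := fO_one hsY hN hp hq hodd
    refine hM.no_sub (κ' := κ) hYS hYneS hN4 hlink ?_ ?_ (Or.inl rfl)
    · rw [hNbY]
      have := beta_insert_le (κ := κ) (N := Nb (delG Z {s}) Y) (x := s)
      linarith
    · intro Y' hY' hne hc
      exact hM.soc.M2 Y' (hY'.trans hYS) hne hc
  · have hind : ∀ x, x ≠ s → κ x + ind s x = κ x := by
      intro x hx
      unfold ind
      rw [if_neg hx, add_zero]
    have hs1 : κ s + ind s s = κ s + 1 := by
      unfold ind
      rw [if_pos rfl]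
    have hodd' : (fun x => κ x + ind s x) s + (fun x => κ x + ind s x) p = 1 := by
      show (κ s + ind s s) + (κ p + ind s p) = 1
      rw [hs1, hind p hsp.ne.symm]
      revert hodd
      generalize κ s = a
      generalize κ p = b
      revert a b
      decide
    have h8 := fO_one (κ := fun x => κ x + ind s x) hsY hN hp hq hodd'
    have h9 : fO (delG Z {s}) (fun x => κ x + ind s x) Y = fO (delG Z {s}) κ Y := by
      apply fO_congr
      intro u v hu
      constructor
      · rintro ⟨g1, g2⟩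
        refine ⟨g1, ?_⟩
        have g3 : (κ u + ind s u) + (κ v + ind s v) = 1 := g2
        rwa [hind u (fun h => g1.2.1 h), hind v (fun h => g1.2.2 h)] at g3
      · rintro ⟨g1, g2⟩
        refine ⟨g1, ?_⟩
        show (κ u + ind s u) + (κ v + ind s v) = 1
        rwa [hind u (fun h => g1.2.1 h), hind v (fun h => g1.2.2 h)]
    have h10 : beta (fun x => κ x + ind s x) (Nb (delG Z {s}) Y) =
        beta κ (Nb (delG Z {s}) Y) := by
      apply beta_congr
      intro x hx
      exact hind x (fun h => hsN (h ▸ hx))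
    refine hM.no_sub (κ' := fun x => κ x + ind s x) hYS hYneS hN4 hlink ?_ ?_
      (Or.inr ⟨s, fun _ => rfl, ?_⟩)
    · rw [hNbY]
      have := beta_insert_le (κ := fun x => κ x + ind s x) (N := Nb (delG Z {s}) Y) (x := s)
      linarith
    · intro Y' hY' hne hc
      by_cases h2 : 2 ≤ Y'.ncard
      · have h11 := hI Y' (hY'.trans hYS) h2 hc
        have h12 := fO_nonpos (Z := Z) (κ := fun x => κ x + ind s x) (Y := Y')
          (fun y hy => (h11 y hy).1.le)
        have h13 := hM.soc.C2 Y' (hY'.trans hYS) h2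
        have h14 := le_beta (fun x => κ x + ind s x) (Nb Z Y')
        have h15 : (3 : ℤ) ≤ ((Nb Z Y').ncard : ℤ) := by exact_mod_cast h13
        linarith
      · have hpos : 0 < Y'.ncard := (Set.ncard_pos (Set.toFinite _)).2 hne
        have h1 : Y'.ncard = 1 := by omega
        obtain ⟨x, rfl⟩ := Set.ncard_eq_one.1 h1
        apply fO_singleton_le
        rw [← Set.ncard_pos (Set.toFinite _)]
        have := hM.soc.C1 x (hYS (hY' rfl))
        omega
    · have hsub2 : (restr Z Y).neighborSet s ⊆ {p} := by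
        intro w hw
        rw [SimpleGraph.mem_neighborSet, restr_adj] at hw
        rcases (hadj w).1 hw.1 with g1 | g1
        · exact g1
        · exfalso
          rcases hw.2 with g2 | g2
          · exact hsY g2
          · exact hq (g1 ▸ g2)
      have := Set.ncard_le_ncard hsub2 (Set.toFinite _)
      rwa [Set.ncard_singleton] at this

/-- Sets which contain no neighbour of `s`. -/
lemma r2_none {Y : Set V} (hN : Z.neighborSet s = {p, q}) (hsY : s ∉ Y)
    (hp : p ∉ Y) (hq : q ∉ Y) :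
    Nb (delG Z {s}) Y = Nb Z Y ∧ fO (delG Z {s}) κ Y = fO Z κ Y := by
  have hadj : ∀ w, Z.Adj s w ↔ w = p ∨ w = q := by
    intro w
    rw [← SimpleGraph.mem_neighborSet, hN]
    simp only [Set.mem_insert_iff, Set.mem_singleton_iff]
  have h : ∀ u v, u ∈ Y → ((delG Z {s}).Adj u v ↔ Z.Adj u v) := by
    intro u v hu
    constructor
    · intro h; exact h.1
    · intro h
      refine ⟨h, fun hh => ?_, fun hh => ?_⟩
      · rw [Set.mem_singleton_iff] at hh
        exact hsY (hh ▸ hu)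
      · rw [Set.mem_singleton_iff] at hh
        rw [hh] at h
        rcases (hadj u).1 h.symm with h1 | h1
        · exact hp (h1 ▸ hu)
        · exact hq (h1 ▸ hu)
  refine ⟨Nb_congr (fun u v hu _ => h u v hu), fO_congr (fun u v hu => ?_)⟩
  rw [h u v hu]

/-- Case B of R2: at most one odd edge at `s`; then `Z - s` is a society. -/
theorem r2_socB [Finite V] (hM : MinCE md Z κ S T)
    (hI : ∀ Y ⊆ S, 2 ≤ Y.ncard → (Nb Z Y).ncard ≤ 3 → ∀ s ∈ Y,
      (Z.neighborSet s).ncard = 2 ∧ ∀ s' ∈ Y, ¬ Z.Adj s s')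
    (hsS : s ∈ S) (hN : Z.neighborSet s = {p, q})
    (hneg : fO Z κ {s} ≤ 0) : Soc md (delG Z {s}) κ (S \ {s}) T := by
  have hadj : ∀ w, Z.Adj s w ↔ w = p ∨ w = q := by
    intro w
    rw [← SimpleGraph.mem_neighborSet, hN]
    simp only [Set.mem_insert_iff, Set.mem_singleton_iff]
  have hsp : Z.Adj s p := (hadj p).2 (Or.inl rfl)
  have hsq : Z.Adj s q := (hadj q).2 (Or.inr rfl)
  have hSS : S \ {s} ⊆ S := Set.sdiff_subset
  have hN' : Z.neighborSet s = {q, p} := by rw [hN, Set.pair_comm]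
  -- all sets
  have key : ∀ Y ⊆ S \ {s}, Y.Nonempty →
      ((2 ≤ Y.ncard → 3 ≤ (Nb (delG Z {s}) Y).ncard) ∧ 2 ≤ (Nb (delG Z {s}) Y).ncard ∧
      ((Nb (delG Z {s}) Y).ncard ≤ 3 →
        fO (delG Z {s}) κ Y ≤ beta κ (Nb (delG Z {s}) Y))) := by
    intro Y hY hne
    have hYS : Y ⊆ S := hY.trans hSS
    have hsY : s ∉ Y := fun hh => (hY hh).2 rfl
    by_cases hp : p ∈ Y
    · by_cases hq : q ∈ Y
      · have h4 : 4 ≤ (Nb Z (insert s Y)).ncard :=
          four_of_adj hI (Set.insert_subset hsS hYS) (Or.inl rfl) (Or.inr hp) hsp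
        have hsub : Nb Z (insert s Y) ⊆ Nb (delG Z {s}) Y := by
          rintro v ⟨h1, u, hu, h2⟩
          have hvs : v ≠ s := fun hh => h1 (Or.inl hh)
          have hvY : v ∉ Y := fun hh => h1 (Or.inr hh)
          rcases hu with hu | hu
          · rw [hu] at h2
            rcases (hadj v).1 h2 with h3 | h3
            · exact absurd (h3 ▸ hp) hvY
            · exact absurd (h3 ▸ hq) hvY
          · rw [Nb_del hsY]
            exact ⟨⟨hvY, u, hu, h2⟩, hvs⟩
        have h5 := Set.ncard_le_ncard hsub (Set.toFinite _)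
        exact ⟨fun _ => by omega, by omega, fun h6 => by omega⟩
      · obtain ⟨h1, h2⟩ := r2_one hM hI hsS hN hYS hsY hp hq
        exact ⟨fun _ => h1, by omega, h2⟩
    · by_cases hq : q ∈ Y
      · obtain ⟨h1, h2⟩ := r2_one hM hI hsS hN' hYS hsY hq hp
        exact ⟨fun _ => h1, by omega, h2⟩
      · obtain ⟨h1, h2⟩ := r2_none (κ := κ) hN hsY hp hq
        rw [h1, h2]
        refine ⟨fun h3 => hM.soc.C2 Y hYS h3, ?_, fun h3 => hM.soc.M2 Y hYS hne h3⟩
        by_cases h3 : 2 ≤ Y.ncard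
        · have := hM.soc.C2 Y hYS h3; omega
        · have hpos : 0 < Y.ncard := (Set.ncard_pos (Set.toFinite _)).2 hne
          have h4 : Y.ncard = 1 := by omega
          obtain ⟨x, rfl⟩ := Set.ncard_eq_one.1 h4
          rw [Nb_singleton]
          exact hM.soc.C1 x (hYS rfl)
  exact
    { T4 := hM.soc.T4
      disj := hM.soc.disj.mono_left hSS
      edge_mem := by
        intro u v huv
        rcases hM.soc.edge_mem u v huv.1 with h | h
        · exact Or.inl ⟨h, huv.2.1⟩
        · exact Or.inr h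
      edge_S := by
        intro u v huv
        rcases hM.soc.edge_S u v huv.1 with h | h
        · exact Or.inl ⟨h, huv.2.1⟩
        · exact Or.inr ⟨h, huv.2.2⟩
      M1 := by
        have h1 := hM.soc.M1
        have h2 : insert s (S \ {s}) = S := by
          rw [Set.insert_sdiff_singleton, Set.insert_eq_of_mem hsS]
        have h3 := fO_insert_del Z κ (s := s) (Y := S \ {s}) (fun h => h.2 rfl)
        rw [h2] at h3
        linarith
      TT := hM.soc.TT
      M2 := fun Y hY hne hc => (key Y hY hne).2.2 hc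
      C1 := by
        intro x hx
        rw [← Nb_singleton]
        exact (key {x} (Set.singleton_subset_iff.2 hx) ⟨x, rfl⟩).2.1
      C2 := by
        intro Y hY h2
        have hne : Y.Nonempty := by
          rw [← Set.ncard_pos (Set.toFinite _)]; omega
        exact (key Y hY hne).1 h2 }

/-- Delete `s` and join `p` and `q` (unless both are terminals). -/
def subG (Z : SimpleGraph V) (T : Set V) (s p q : V) : SimpleGraph V where
  Adj u v := (Z.Adj u v ∧ u ≠ s ∧ v ≠ s) ∨
    (p ≠ q ∧ (p ∉ T ∨ q ∉ T) ∧ ((u = p ∧ v = q) ∨ (u = q ∧ v = p)))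
  symm := ⟨by
    rintro u v (⟨h1, h2, h3⟩ | ⟨h1, h2, h3 | h3⟩)
    · exact Or.inl ⟨h1.symm, h3, h2⟩
    · exact Or.inr ⟨h1, h2, Or.inr ⟨h3.2, h3.1⟩⟩
    · exact Or.inr ⟨h1, h2, Or.inl ⟨h3.2, h3.1⟩⟩⟩
  loopless := ⟨by
    rintro u (⟨h1, -, -⟩ | ⟨h1, -, h3 | h3⟩)
    · exact h1.ne rfl
    · exact h1 (h3.1.symm.trans h3.2)
    · exact h1 (h3.2.symm.trans h3.1)⟩

lemma subG_adj {u v : V} : (subG Z T s p q).Adj u v ↔ (Z.Adj u v ∧ u ≠ s ∧ v ≠ s) ∨
    (p ≠ q ∧ (p ∉ T ∨ q ∉ T) ∧ ((u = p ∧ v = q) ∨ (u = q ∧ v = p))) := Iff.rfl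

/-- Case A of R2: both edges at `s` are odd; then `subG` is a society. -/
theorem r2_socA [Finite V] (h : Soc md Z κ S T) (hsS : s ∈ S) (hN : Z.neighborSet s = {p, q})
    (hpq : p ≠ q) (h1p : κ s + κ p = 1) (h1q : κ s + κ q = 1) :
    Soc md (subG Z T s p q) κ (S \ {s}) T := by
  have hadj : ∀ w, Z.Adj s w ↔ w = p ∨ w = q := by
    intro w
    rw [← SimpleGraph.mem_neighborSet, hN]
    simp only [Set.mem_insert_iff, Set.mem_singleton_iff]
  have hsp : Z.Adj s p := (hadj p).2 (Or.inl rfl)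
  have hsq : Z.Adj s q := (hadj q).2 (Or.inr rfl)
  have hκ : κ p = κ q :=
    eq_of_ne_of_ne (add_eq_one_iff.1 h1p).symm (add_eq_one_iff.1 h1q).symm
  have hSS : S \ {s} ⊆ S := Set.sdiff_subset
  have hfs : fO Z κ {s} = 0 := by
    rw [fO_singleton]
    have : {w | Z.Adj s w ∧ κ s + κ w = 1} = {p, q} := by
      ext w
      simp only [Set.mem_ofPred_eq, Set.mem_insert_iff, Set.mem_singleton_iff]
      constructor
      · rintro ⟨g1, -⟩; exact (hadj w).1 g1
      · intro g1
        refine ⟨(hadj w).2 g1, ?_⟩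
        rcases g1 with g1 | g1
        · rw [g1]; exact h1p
        · rw [g1]; exact h1q
    rw [this, Set.ncard_pair hpq]
    norm_num
  have hfO : ∀ Y : Set V, s ∉ Y → fO (subG Z T s p q) κ Y = fO Z κ (insert s Y) := by
    intro Y hsY
    rw [fO_insert_del Z κ hsY, hfs, add_zero]
    apply fO_congr
    intro u v _
    rw [subG_adj, delG_adj]
    constructor
    · rintro ⟨g1 | g1, g2⟩
      · exact ⟨g1, g2⟩
      · exfalso
        rcases g1.2.2 with ⟨g3, g4⟩ | ⟨g3, g4⟩
        · rw [g3, g4] at g2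
          exact add_eq_one_iff.1 g2 hκ
        · rw [g3, g4] at g2
          exact add_eq_one_iff.1 g2 hκ.symm
    · rintro ⟨g1, g2⟩
      exact ⟨Or.inl g1, g2⟩
  have hfO' : ∀ Y : Set V, s ∉ Y → p ∉ Y → q ∉ Y → fO Z κ (insert s Y) = fO Z κ Y := by
    intro Y hsY hp hq
    rw [fO_insert_del Z κ hsY, hfs, add_zero]
    exact (r2_none hN hsY hp hq).2
  have hNb0 : ∀ Y : Set V, s ∉ Y → p ∉ Y → q ∉ Y → Nb (subG Z T s p q) Y = Nb Z Y := by
    intro Y hsY hp hq
    apply Nb_congr
    intro u v hu _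
    rw [subG_adj]
    have hus : u ≠ s := fun hh => hsY (hh ▸ hu)
    have hup : u ≠ p := fun hh => hp (hh ▸ hu)
    have huq : u ≠ q := fun hh => hq (hh ▸ hu)
    constructor
    · rintro (g1 | g1)
      · exact g1.1
      · exfalso
        rcases g1.2.2 with ⟨g3, g4⟩ | ⟨g3, g4⟩
        · exact hup g3
        · exact huq g3
    · intro g1
      left
      refine ⟨g1, hus, fun hh => ?_⟩
      rw [hh] at g1
      rcases (hadj u).1 g1.symm with g2 | g2
      · exact hup g2
      · exact huq g2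
  have hNb1 : ∀ Y : Set V, Y ⊆ S → s ∉ Y → (p ∈ Y ∨ q ∈ Y) →
      Nb (subG Z T s p q) Y = Nb Z (insert s Y) := by
    intro Y hYS hsY hor
    have hYT : ∀ x ∈ Y, x ∉ T := fun x hx => Set.disjoint_left.1 h.disj (hYS hx)
    ext v
    constructor
    · rintro ⟨hv, u, hu, huv⟩
      rw [subG_adj] at huv
      rcases huv with ⟨g1, g2, g3⟩ | ⟨-, -, g1⟩
      · refine ⟨?_, u, Or.inr hu, g1⟩
        rintro (g4 | g4)
        · exact g3 g4
        · exact hv g4
      · have hvs : v ≠ s := by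
          rcases g1 with ⟨-, g2⟩ | ⟨-, g2⟩
          · rw [g2]; exact hsq.ne.symm
          · rw [g2]; exact hsp.ne.symm
        refine ⟨?_, s, Or.inl rfl, ?_⟩
        · rintro (g4 | g4)
          · exact hvs g4
          · exact hv g4
        · rcases g1 with ⟨-, g2⟩ | ⟨-, g2⟩
          · rw [g2]; exact hsq
          · rw [g2]; exact hsp
    · rintro ⟨hv, u, hu, huv⟩
      have hvs : v ≠ s := fun hh => hv (Or.inl hh)
      have hvY : v ∉ Y := fun hh => hv (Or.inr hh)
      refine ⟨hvY, ?_⟩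
      rcases hu with hu | hu
      · rw [hu] at huv
        rcases (hadj v).1 huv with g1 | g1
        · have hqY : q ∈ Y := by
            rcases hor with g2 | g2
            · exact absurd (g1 ▸ g2) hvY
            · exact g2
          exact ⟨q, hqY, Or.inr ⟨hpq, Or.inr (hYT q hqY), Or.inr ⟨rfl, g1⟩⟩⟩
        · have hpY : p ∈ Y := by
            rcases hor with g2 | g2
            · exact g2
            · exact absurd (g1 ▸ g2) hvY
          exact ⟨p, hpY, Or.inr ⟨hpq, Or.inl (hYT p hpY), Or.inl ⟨rfl, g1⟩⟩⟩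
      · exact ⟨u, hu, Or.inl ⟨huv, fun hh => hsY (hh ▸ hu), hvs⟩⟩
  have hcard : ∀ Y : Set V, Y.Nonempty → s ∉ Y → 2 ≤ (insert s Y).ncard := by
    intro Y hne hsY
    have hpos : 0 < Y.ncard := (Set.ncard_pos (Set.toFinite _)).2 hne
    rw [Set.ncard_insert_of_notMem hsY (Set.toFinite _)]
    omega
  exact
    { T4 := h.T4
      disj := h.disj.mono_left hSS
      edge_mem := by
        intro u v huv
        rw [subG_adj] at huv
        rcases huv with ⟨g1, g2, -⟩ | ⟨-, -, g1⟩
        · rcases h.edge_mem u v g1 with g | g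
          · exact Or.inl ⟨g, g2⟩
          · exact Or.inr g
        · rcases g1 with ⟨g2, -⟩ | ⟨g2, -⟩
          · rw [g2]
            rcases h.edge_mem p s hsp.symm with g | g
            · exact Or.inl ⟨g, hsp.ne.symm⟩
            · exact Or.inr g
          · rw [g2]
            rcases h.edge_mem q s hsq.symm with g | g
            · exact Or.inl ⟨g, hsq.ne.symm⟩
            · exact Or.inr g
      edge_S := by
        intro u v huv
        rw [subG_adj] at huv
        rcases huv with ⟨g1, g2, g3⟩ | ⟨-, g0, g1⟩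
        · rcases h.edge_S u v g1 with g | g
          · exact Or.inl ⟨g, g2⟩
          · exact Or.inr ⟨g, g3⟩
        · have hps : p ∈ S ∪ T := h.edge_mem p s hsp.symm
          have hqs : q ∈ S ∪ T := h.edge_mem q s hsq.symm
          have hpS : p ∉ T → p ∈ S \ {s} := fun g => ⟨hps.resolve_right g, hsp.ne.symm⟩
          have hqS : q ∉ T → q ∈ S \ {s} := fun g => ⟨hqs.resolve_right g, hsq.ne.symm⟩
          rcases g1 with ⟨g2, g3⟩ | ⟨g2, g3⟩
          · rw [g2, g3]
            rcases g0 with g0 | g0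
            · exact Or.inl (hpS g0)
            · exact Or.inr (hqS g0)
          · rw [g2, g3]
            rcases g0 with g0 | g0
            · exact Or.inr (hpS g0)
            · exact Or.inl (hqS g0)
      M1 := by
        have h1 := h.M1
        have h2 : insert s (S \ {s}) = S := by
          rw [Set.insert_sdiff_singleton, Set.insert_eq_of_mem hsS]
        rw [hfO (S \ {s}) (fun h => h.2 rfl), h2]
        exact h1
      TT := h.TT
      M2 := by
        intro Y hY hne hc
        have hYS : Y ⊆ S := hY.trans hSS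
        have hsY : s ∉ Y := fun hh => (hY hh).2 rfl
        by_cases hor : p ∈ Y ∨ q ∈ Y
        · rw [hNb1 Y hYS hsY hor] at hc ⊢
          rw [hfO Y hsY]
          exact h.M2 _ (Set.insert_subset hsS hYS) ⟨s, Or.inl rfl⟩ hc
        · push Not at hor
          rw [hNb0 Y hsY hor.1 hor.2] at hc ⊢
          rw [hfO Y hsY, hfO' Y hsY hor.1 hor.2]
          exact h.M2 Y hYS hne hc
      C1 := by
        intro x hx
        rw [← Nb_singleton]
        have hsx : s ∉ ({x} : Set V) := fun hh => hx.2 (Set.mem_singleton_iff.1 hh).symm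
        by_cases hor : p ∈ ({x} : Set V) ∨ q ∈ ({x} : Set V)
        · rw [hNb1 {x} (Set.singleton_subset_iff.2 hx.1) hsx hor]
          have := h.C2 (insert s {x}) (Set.insert_subset hsS (Set.singleton_subset_iff.2 hx.1))
            (hcard _ ⟨x, rfl⟩ hsx)
          omega
        · push Not at hor
          rw [hNb0 {x} hsx hor.1 hor.2, Nb_singleton]
          exact h.C1 x hx.1
      C2 := by
        intro Y hY h2
        have hYS : Y ⊆ S := hY.trans hSS
        have hsY : s ∉ Y := fun hh => (hY hh).2 rfl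
        have hne : Y.Nonempty := by
          rw [← Set.ncard_pos (Set.toFinite _)]; omega
        by_cases hor : p ∈ Y ∨ q ∈ Y
        · rw [hNb1 Y hYS hsY hor]
          exact h.C2 _ (Set.insert_subset hsS hYS) (hcard _ hne hsY)
        · push Not at hor
          rw [hNb0 Y hsY hor.1 hor.2]
          exact h.C2 Y hYS h2 }

/-- The edge `pq` of `subG` is replaced by the path `p - s - q`. -/
lemma subG_walk (hN : Z.neighborSet s = {p, q}) (hpq : p ≠ q) (hsT : s ∉ T) :
    ∀ x y, (subG Z T s p q).Adj x y → ∃ R : Z.Walk x y, R.IsPath ∧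
      ∀ z ∈ R.support, z = x ∨ z = y ∨
        ((fun _ : V => s(p, q)) z = s(x, y) ∧ z ∉ supp (subG Z T s p q) ∧ z ∉ T) := by
  have hadj : ∀ w, Z.Adj s w ↔ w = p ∨ w = q := by
    intro w
    rw [← SimpleGraph.mem_neighborSet, hN]
    simp only [Set.mem_insert_iff, Set.mem_singleton_iff]
  have hsp : Z.Adj s p := (hadj p).2 (Or.inl rfl)
  have hsq : Z.Adj s q := (hadj q).2 (Or.inr rfl)
  have hss : s ∉ supp (subG Z T s p q) := by
    rintro ⟨w, hw⟩
    rw [subG_adj] at hw
    rcases hw with ⟨-, h1, -⟩ | ⟨-, -, ⟨h1, -⟩ | ⟨h1, -⟩⟩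
    · exact h1 rfl
    · exact hsp.ne h1
    · exact hsq.ne h1
  have hpath : ∀ x y, Z.Adj s x → Z.Adj s y → x ≠ y → s(x, y) = s(p, q) →
      ∃ R : Z.Walk x y, R.IsPath ∧ ∀ z ∈ R.support, z = x ∨ z = y ∨
        ((fun _ : V => s(p, q)) z = s(x, y) ∧ z ∉ supp (subG Z T s p q) ∧ z ∉ T) := by
    intro x y hx hy hxy he
    refine ⟨Walk.cons hx.symm (Walk.cons hy Walk.nil), ?_, ?_⟩
    · rw [Walk.cons_isPath_iff, Walk.cons_isPath_iff]
      refine ⟨⟨Walk.IsPath.nil, by simpa using hy.ne⟩, ?_⟩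
      simp only [Walk.support_cons, Walk.support_nil, List.mem_cons, List.not_mem_nil, or_false]
      push Not
      exact ⟨hx.ne.symm, hxy⟩
    · intro z hz
      simp only [Walk.support_cons, Walk.support_nil, List.mem_cons, List.not_mem_nil,
        or_false] at hz
      rcases hz with hz | hz | hz
      · exact Or.inl hz
      · right; right
        rw [hz]
        exact ⟨he.symm, hss, hsT⟩
      · exact Or.inr (Or.inl hz)
  intro x y hxy
  rw [subG_adj] at hxy
  rcases hxy with ⟨h1, h2, h3⟩ | ⟨-, -, ⟨h1, h2⟩ | ⟨h1, h2⟩⟩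
  · obtain ⟨R, g1, -, g2⟩ := exists_edge_walk (fun _ => (1 : ZMod 2)) h1
    refine ⟨R, g1, ?_⟩
    intro z hz
    rw [g2] at hz
    simp only [List.mem_cons, List.not_mem_nil, or_false] at hz
    rcases hz with hz | hz
    · exact Or.inl hz
    · exact Or.inr (Or.inl hz)
  · subst h1 h2
    exact hpath x y hsp hsq hpq rfl
  · subst h1 h2
    exact hpath x y hsq hsp hpq.symm Sym2.eq_swap

lemma sdiff_singleton_lt [Finite V] (hsS : s ∈ S) : (S \ {s}).ncard < S.ncard := by
  apply Set.ncard_lt_ncard _ (Set.toFinite _)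
  exact ⟨Set.sdiff_subset, fun hh => (hh hsS).2 rfl⟩

end R2

end Pool.Agent.Helper1.TD

namespace Pool.Agent.Helper57.TD

open SimpleGraph Pool.Agent.Helper57.TOK Pool.Agent.Helper82.TK Pool.Agent.Helper1.TD

variable {V : Type*}

/-- Reduction R2: every inner vertex has at least three neighbours. -/
theorem MinCE.deg3 [Finite V] {md : Bool} {Z : SimpleGraph V} {κ : V → ZMod 2} {S T : Set V}
    (hM : MinCE md Z κ S T)
    (hI : ∀ Y ⊆ S, 2 ≤ Y.ncard → (Nb Z Y).ncard ≤ 3 → ∀ s ∈ Y,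
      (Z.neighborSet s).ncard = 2 ∧ ∀ s' ∈ Y, ¬ Z.Adj s s') :
    ∀ s ∈ S, 3 ≤ (Z.neighborSet s).ncard := by
  intro s hsS
  by_contra hlt
  have h2 := hM.soc.C1 s hsS
  obtain ⟨p, q, hpq, hN⟩ := Set.ncard_eq_two.1 (show (Z.neighborSet s).ncard = 2 by omega)
  have hadj : ∀ w, Z.Adj s w ↔ w = p ∨ w = q := by
    intro w
    rw [← SimpleGraph.mem_neighborSet, hN]
    simp only [Set.mem_insert_iff, Set.mem_singleton_iff]
  have hsT : s ∉ T := Set.disjoint_left.1 hM.soc.disj hsS
  have hTT : ∀ a ∈ T, ∀ b ∈ T, ¬ Z.Adj a b := by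
    intro a ha b hb h
    rcases hM.soc.edge_S a b h with h6 | h6
    · exact (Set.disjoint_left.1 hM.soc.disj) h6 ha
    · exact (Set.disjoint_left.1 hM.soc.disj) h6 hb
  by_cases hodd : κ s + κ p = 1 ∧ κ s + κ q = 1
  · have hsoc := r2_socA hM.soc hsS hN hpq hodd.1 hodd.2
    have hG := hM.IH _ _ _ _ hsoc (Or.inl (sdiff_singleton_lt hsS))
    apply hM.bad
    refine Goal.of_topo_id (Z' := subG Z T s p q) (fun _ => s(p, q))
      (subG_walk hN hpq hsT) ?_ hTT hG
    intro a ha b hb hab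
    rcases hsoc.edge_S a b hab with h6 | h6
    · exact (Set.disjoint_left.1 hM.soc.disj) h6.1 ha
    · exact (Set.disjoint_left.1 hM.soc.disj) h6.1 hb
  · have hneg : fO Z κ {s} ≤ 0 := by
      apply fO_nonpos
      intro y hy
      rw [Set.mem_singleton_iff.1 hy]
      omega
    have hsoc := r2_socB hM hI hsS hN hneg
    have hG := hM.IH _ _ _ _ hsoc (Or.inl (sdiff_singleton_lt hsS))
    exact hM.bad (Goal.mono (delG_le Z {s}) hTT hG)

/-- P1: sets with at least two elements have at least four neighbours. -/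
theorem MinCE.P1 [Finite V] {md : Bool} {Z : SimpleGraph V} {κ : V → ZMod 2} {S T : Set V}
    (hM : MinCE md Z κ S T)
    (hI : ∀ Y ⊆ S, 2 ≤ Y.ncard → (Nb Z Y).ncard ≤ 3 → ∀ s ∈ Y,
      (Z.neighborSet s).ncard = 2 ∧ ∀ s' ∈ Y, ¬ Z.Adj s s') :
    ∀ Y ⊆ S, 2 ≤ Y.ncard → 4 ≤ (Nb Z Y).ncard := by
  intro Y hY h2
  by_contra hlt
  have hne : Y.Nonempty := by
    rw [← Set.ncard_pos (Set.toFinite _)]; omega
  obtain ⟨x, hx⟩ := hne
  have h3 := hM.deg3 hI x (hY hx)
  have h4 := (hI Y hY h2 (by omega) x hx).1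
  omega

end Pool.Agent.Helper57.TD
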