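import Pool.Agent.Helper1.TD.Theta
import Pool.Agent.Helper1.TD.FoldStep
import Pool.Agent.Helper1.TD.R2

/-!
# Theorem D: the fields T3, TYPE1, L1, FOLD of `Core` for a minimal counterexample
-/

set_option autoImplicit false

namespace Pool.Agent.Helper57.TD

open SimpleGraph Pool.Agent.Helper57.TOK Pool.Agent.Helper82.TK Pool.Agent.Helper1.TD

variable {V : Type*} {md : Bool} {Z : SimpleGraph V} {κ : V → ZMod 2} {S T : Set V}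

lemma MinCE.bas (hM : MinCE md Z κ S T) : Bas Z S T :=
  ⟨hM.soc.T4, hM.soc.disj, hM.soc.edge_mem, hM.soc.edge_S⟩

theorem MinCE.T3 [Finite V] (hM : MinCE md Z κ S T) (hZ : Proper Z κ)
    (P1 : ∀ Y ⊆ S, 2 ≤ Y.ncard → 4 ≤ (Nb Z Y).ncard) :
    ∀ c d, d ∈ S → c ≠ d → (Z.neighborSet d).ncard = 3 →
      ¬ Z.neighborSet d ⊆ Z.neighborSet c :=
  core_T3 hM.bas hZ hM.notAll P1

theorem MinCE.TYPE1 [Finite V] (hM : MinCE md Z κ S T) (hZ : Proper Z κ)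
    (deg3 : ∀ s ∈ S, 3 ≤ (Z.neighborSet s).ncard)
    (P1 : ∀ Y ⊆ S, 2 ≤ Y.ncard → 4 ≤ (Nb Z Y).ncard) :
    ∀ a b y z1 z2, a ∈ S → a ≠ b → y ≠ z1 → y ≠ z2 → z1 ≠ z2 →
      Z.Adj a y → Z.Adj a z1 → Z.Adj a z2 → Z.Adj b y → Z.Adj b z1 → Z.Adj b z2 →
      ∃ D ⊆ S, a ∉ D ∧ 2 ≤ D.ncard ∧ (Nb Z D).ncard = 4 ∧ a ∈ Nb Z D ∧
        b ∈ D ∪ Nb Z D ∧ y ∈ D ∪ Nb Z D ∧ z1 ∈ D ∪ Nb Z D ∧ z2 ∈ D ∪ Nb Z D :=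
  core_TYPE1 hM.bas hZ hM.notAll deg3 P1

theorem MinCE.L1 [Finite V] (hM : MinCE md Z κ S T) (hZ : Proper Z κ)
    (P1 : ∀ Y ⊆ S, 2 ≤ Y.ncard → 4 ≤ (Nb Z Y).ncard) :
    ∀ w1 w2 y a b c e g, w1 ∈ S → w2 ∈ S → y ∈ S → b ∈ S → w1 ≠ w2 → y ≠ w1 → y ≠ w2 →
      a ≠ b → c ≠ e → c ≠ g → c ≠ a → c ≠ b → e ≠ g → a ≠ e → a ≠ g → b ≠ e → b ≠ g →
      Z.neighborSet w1 = {a, e, g} → Z.neighborSet w2 = {b, e, g} →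
      Z.neighborSet y = {a, b, c} →
      ∃ D ⊆ S, y ∈ D ∧ w1 ∈ D ∧ w2 ∈ D ∧ b ∈ Nb Z D ∧ (Nb Z D).ncard = 4 :=
  core_L1 hM.bas hZ hM.notAll P1

theorem MinCE.FOLD [Finite V] (hM : MinCE md Z κ S T) (hZ : Proper Z κ)
    (deg3 : ∀ s ∈ S, 3 ≤ (Z.neighborSet s).ncard)
    (P1 : ∀ Y ⊆ S, 2 ≤ Y.ncard → 4 ≤ (Nb Z Y).ncard)
    (P2 : ∀ Y ⊆ S, Y ≠ S → (Nb Z Y).ncard = 4 → fden Z Y ≤ beta κ (Nb Z Y)) :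
    ∀ y p q c, y ∈ S → q ∈ S → p ≠ q → p ≠ c → q ≠ c → Z.neighborSet y = {p, q, c} →
    (∃ z1 z2, z1 ≠ z2 ∧ z1 ≠ y ∧ z2 ≠ y ∧ Z.Adj p z1 ∧ Z.Adj q z1 ∧ Z.Adj p z2 ∧ Z.Adj q z2) ∨
    (p ∈ T ∧ ∃ t ∈ T, Z.Adj q t) ∨
    (∃ A ⊆ S, (Nb Z A).ncard = 4 ∧ p ∈ Nb Z A ∧ q ∈ Nb Z A ∧ y ∉ A ∧ c ∉ A ∧ c ∉ Nb Z A ∧
      ∀ w ∈ A, ¬ (Z.Adj w p ∧ Z.Adj w q)) ∨
    (∃ A ⊆ S, (Nb Z A).ncard = 4 ∧ p ∈ A ∧ q ∈ A ∧ y ∉ A ∧ c ∉ A ∧ c ∉ Nb Z A ∧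
      ∀ w, w ≠ y → ¬ (Z.Adj w p ∧ Z.Adj w q)) := by
  refine core_FOLD hM.bas hZ deg3 P1 P2 ?_
  intro y p q hy hq hpq hyp hyq hκ hK hf
  have hST : ∀ x ∈ S, x ∉ T := fun x hx => Set.disjoint_left.1 hM.soc.disj hx
  have hsoc : Soc md (cutT (foldG Z y p q) T) κ (S \ {y, q}) T :=
    { T4 := hK.bas.T4
      disj := hK.bas.disj
      edge_mem := hK.bas.edge_mem
      edge_S := hK.bas.edge_S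
      M1 := hM.soc.M1.trans hf
      TT := hM.soc.TT
      M2 := hK.M2
      C1 := hK.C1
      C2 := hK.C2 }
  have hG := hM.IH _ _ _ _ hsoc (Or.inl (fold_smaller hy))
  exact hM.bad (Goal.of_fold (Z' := cutT (foldG Z y p q) T) (y := y) (p := p) (q := q)
    (fun u v huv => huv.1) hK.bas.TT hM.bas.TT hpq hyp hyq hκ (hST y hy) (hST q hq) hG)

end Pool.Agent.Helper57.TD
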