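import Pool.Agent.Helper57.TD.Defs

/-!
# Theorem D: frames from a small subgraph and a linkage to the terminals

* `Bas Z S T`: the basic fields of a society (independent of densities).
* `linked_or_set`: `k` disjoint paths from `Q` to `T` in `Z - F`, or a set `D` which is cut off.
* `LocFr Z κ F Q a b u v`: a frame for `{a,b} | {u,v}` inside a subgraph of `Z` supported on
  `F ∪ Q`, without the edges `ab` and `uv`.
* `allFrames_of_local`: three local frames and a linkage give all frames of `Z` on `T`.
-/

set_option autoImplicit false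

namespace Pool.Agent.Helper1.TD

open SimpleGraph Pool.Agent.Helper57.TOK Pool.Agent.Helper57.TD Pool.Agent.Helper82.TK

variable {V : Type*}

/-- The basic fields of a society. -/
structure Bas (Z : SimpleGraph V) (S T : Set V) : Prop where
  T4 : T.ncard = 4
  disj : Disjoint S T
  edge_mem : ∀ u v, Z.Adj u v → u ∈ S ∪ T
  edge_S : ∀ u v, Z.Adj u v → u ∈ S ∨ v ∈ S

lemma Bas.TT {Z : SimpleGraph V} {S T : Set V} (h : Bas Z S T) :
    ∀ a ∈ T, ∀ b ∈ T, ¬ Z.Adj a b := by
  intro a ha b hb hab
  rcases h.edge_S a b hab with h1 | h1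
  · exact (Set.disjoint_left.1 h.disj h1) ha
  · exact (Set.disjoint_left.1 h.disj h1) hb

/-- Linkage in `Z - F` or a set which is cut off by fewer than `k` vertices and `F`. -/
theorem linked_or_set [Finite V] (Z : SimpleGraph V) {F Q T : Set V} (k : ℕ)
    (hQF : ∀ q ∈ Q, q ∉ F) :
    Linked (delG Z F) Q T k ∨ ∃ D X : Set V, X.ncard < k ∧ Disjoint D X ∧
      Disjoint D F ∧ Disjoint D T ∧ Nb Z D ⊆ X ∪ F ∧ Q ⊆ D ∪ X ∧
      ∀ z ∈ D, z ∈ Q ∨ ∃ w, Z.Adj z w := by
  classical
  by_cases h : ∀ S : Finset V, S.card < k → ¬ Sep (delG Z F) Q T S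
  · exact Or.inl (menger _ _ _ _ h)
  · right
    push Not at h
    obtain ⟨S, hS, hsep⟩ := h
    have hDF : ∀ z ∈ Reach (delG Z F) Q (S : Set V), z ∉ F := by
      rintro z ⟨a, ha, p, -⟩
      exact notMem_of_mem_support_delG p (hQF a ha) z p.end_mem_support
    refine ⟨Reach (delG Z F) Q (S : Set V), (S : Set V), by rwa [Set.ncard_coe_finset],
      ?_, ?_, ?_, ?_, ?_, ?_⟩
    · rw [Set.disjoint_left]
      intro z hz
      exact not_mem_of_reach hz
    · rw [Set.disjoint_left]
      exact hDF
    · rw [Set.disjoint_left]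
      intro z hz hzT
      rw [sep_iff_reach] at hsep
      exact hsep z hz (reach_of_mem hzT (not_mem_of_reach hz))
    · rintro v ⟨hv, u, hu, huv⟩
      by_contra hcon
      simp only [Set.mem_union, not_or] at hcon
      exact hv (reach_adj hu ⟨huv, hDF u hu, hcon.2⟩ hcon.1)
    · intro q hq
      by_cases hqS : q ∈ (S : Set V)
      · exact Or.inr hqS
      · exact Or.inl (reach_of_mem hq hqS)
    · rintro z ⟨a, ha, p, -⟩
      by_cases haz : a = z
      · exact Or.inl (haz ▸ ha)
      · right
        obtain ⟨w, hw, -⟩ := exists_last_edge p haz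
        exact ⟨w, hw.1.symm⟩

/-- A frame for `{a,b} | {u,v}` in a subgraph of `Z` with support in `F ∪ Q`. -/
def LocFr (Z : SimpleGraph V) (κ : V → ZMod 2) (F Q : Set V) (a b u v : V) : Prop :=
  ∃ Z' : SimpleGraph V, Z' ≤ Z ∧ supp Z' ⊆ F ∪ Q ∧ ¬ Z'.Adj a b ∧ ¬ Z'.Adj u v ∧
    FrameE Z' κ a b u v

section LocFr

variable {Z : SimpleGraph V} {κ : V → ZMod 2} {F Q : Set V} {a b u v : V}

lemma LocFr.swap (h : LocFr Z κ F Q a b u v) : LocFr Z κ F Q u v a b := by
  obtain ⟨Z', h1, h2, h3, h4, h5⟩ := h
  exact ⟨Z', h1, h2, h4, h3, h5.swap⟩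

lemma LocFr.swap_left (h : LocFr Z κ F Q a b u v) : LocFr Z κ F Q b a u v := by
  obtain ⟨Z', h1, h2, h3, h4, h5⟩ := h
  exact ⟨Z', h1, h2, fun hh => h3 hh.symm, h4, h5.swap_left⟩

lemma LocFr.swap_right (h : LocFr Z κ F Q a b u v) : LocFr Z κ F Q a b v u :=
  h.swap.swap_left.swap

end LocFr

lemma loc_of_three {Z : SimpleGraph V} {κ : V → ZMod 2} {F Q : Set V} {q : Fin 4 → V}
    (h1 : LocFr Z κ F Q (q 0) (q 1) (q 2) (q 3))
    (h2 : LocFr Z κ F Q (q 0) (q 2) (q 1) (q 3))
    (h3 : LocFr Z κ F Q (q 0) (q 3) (q 1) (q 2)) :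
    ∀ i j k l : Fin 4, i ≠ j → i ≠ k → i ≠ l → j ≠ k → j ≠ l → k ≠ l →
      LocFr Z κ F Q (q i) (q j) (q k) (q l) := by
  intro i j k l hij hik hil hjk hjl hkl
  fin_cases i <;> fin_cases j <;>
    first
      | exact absurd rfl hij
      | (fin_cases k <;>
          first
            | exact absurd rfl hik
            | exact absurd rfl hjk
            | (fin_cases l <;>
                first
                  | exact absurd rfl hil
                  | exact absurd rfl hjl
                  | exact absurd rfl hkl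
                  | exact h1
                  | exact h1.swap_left
                  | exact h1.swap_right
                  | exact h1.swap_left.swap_right
                  | exact h1.swap
                  | exact h1.swap.swap_left
                  | exact h1.swap.swap_right
                  | exact h1.swap.swap_left.swap_right
                  | exact h2
                  | exact h2.swap_left
                  | exact h2.swap_right
                  | exact h2.swap_left.swap_right
                  | exact h2.swap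
                  | exact h2.swap.swap_left
                  | exact h2.swap.swap_right
                  | exact h2.swap.swap_left.swap_right
                  | exact h3
                  | exact h3.swap_left
                  | exact h3.swap_right
                  | exact h3.swap_left.swap_right
                  | exact h3.swap
                  | exact h3.swap.swap_left
                  | exact h3.swap.swap_right
                  | exact h3.swap.swap_left.swap_right))

/-- Local frames and a linkage give all frames. -/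
theorem allFrames_of_local [Finite V] {Z : SimpleGraph V} {κ : V → ZMod 2} {T F : Set V}
    (hT4 : T.ncard = 4) (hTT : ∀ a ∈ T, ∀ b ∈ T, ¬ Z.Adj a b)
    {q : Fin 4 → V} (hq : Function.Injective q) (hQF : ∀ i, q i ∉ F)
    (hl : Linked (delG Z F) (Set.range q) T 4)
    (h1 : LocFr Z κ F (Set.range q) (q 0) (q 1) (q 2) (q 3))
    (h2 : LocFr Z κ F (Set.range q) (q 0) (q 2) (q 1) (q 3))
    (h3 : LocFr Z κ F (Set.range q) (q 0) (q 3) (q 1) (q 2)) : AllFramesE Z κ T := by
  classical
  obtain ⟨t, P, hP1, hP2, -, hP4⟩ := Linked.enum hq hl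
  have htinj : Function.Injective t := injective_end hP4
  have hsurj : ∀ a ∈ T, ∃ i, t i = a := by
    have himg : (Set.range t) = T := by
      apply Set.eq_of_subset_of_ncard_le _ _ (Set.toFinite _)
      · rintro _ ⟨i, rfl⟩; exact (hP1 i).1
      · rw [hT4]
        have : (Set.range t).ncard = Nat.card (Fin 4) := by
          rw [← Set.image_univ, Set.ncard_image_of_injective _ htinj, Set.ncard_univ]
        rw [this]; simp
    intro a ha
    rw [← himg] at ha
    exact ha
  have hloc := loc_of_three h1 h2 h3
  have hle := delG_le Z F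
  intro a ha b hb u hu v hv hab hau hav hbu hbv huv
  obtain ⟨i, rfl⟩ := hsurj a ha
  obtain ⟨j, rfl⟩ := hsurj b hb
  obtain ⟨k, rfl⟩ := hsurj u hu
  obtain ⟨l, rfl⟩ := hsurj v hv
  have hij : i ≠ j := fun h => hab (h ▸ rfl)
  have hik : i ≠ k := fun h => hau (h ▸ rfl)
  have hil : i ≠ l := fun h => hav (h ▸ rfl)
  have hjk : j ≠ k := fun h => hbu (h ▸ rfl)
  have hjl : j ≠ l := fun h => hbv (h ▸ rfl)
  have hkl : k ≠ l := fun h => huv (h ▸ rfl)
  obtain ⟨Z', g1, g2, g3, g4, g5⟩ := hloc i j k l hij hik hil hjk hjl hkl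
  have hdis : ∀ i j, i ≠ j → ∀ x, x ∈ ((P i).mapLe hle).support →
      x ∉ ((P j).mapLe hle).support := by
    intro i j hij x hx
    rw [Walk.support_mapLe_eq_support] at hx ⊢
    exact hP4 i j hij x hx
  have hpath : ∀ i, ((P i).mapLe hle).IsPath := fun i => (Walk.isPath_mapLe hle).2 (hP1 i).2
  have hmeet : ∀ i, ∀ x ∈ ((P i).mapLe hle).support, x ∈ supp Z' → x = q i := by
    intro i x hx hxs
    rw [Walk.support_mapLe_eq_support] at hx
    rcases g2 hxs with h | h
    · exact absurd h (notMem_of_mem_support_delG (P i) (hQF i) x hx)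
    · exact hP2 i x hx h
  exact FrameE.of_linkage g1 hab huv (hTT _ ha _ hb) (hTT _ hu _ hv) g3 g4
    ((P i).mapLe hle) ((P j).mapLe hle) ((P k).mapLe hle) ((P l).mapLe hle)
    (hpath i) (hpath j) (hpath k) (hpath l)
    (hdis i j hij) (hdis i k hik) (hdis i l hil) (hdis j k hjk) (hdis j l hjl) (hdis k l hkl)
    (hmeet i) (hmeet j) (hmeet k) (hmeet l) g5

end Pool.Agent.Helper1.TD
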