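import Pool.Agent.Helper1.TD.Local

/-!
# Theorem D: the lemmas T3, TYPE1 and L1

Hypotheses: `Bas Z S T`, `Proper Z κ`, degrees at least three, P1, and not all frames.
-/

set_option autoImplicit false

namespace Pool.Agent.Helper1.TD

open SimpleGraph Pool.Agent.Helper57.TOK Pool.Agent.Helper57.TD Pool.Agent.Helper82.TK

variable {V : Type*}

/-- If not all frames exist, three local frames on the range of `q` give a set which is cut off. -/
theorem sep_of_local [Finite V] {Z : SimpleGraph V} {κ : V → ZMod 2} {S T F : Set V}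
    (h : Bas Z S T) (hbad : ¬ AllFramesE Z κ T)
    {q : Fin 4 → V} (hq : Function.Injective q) (hQF : ∀ i, q i ∉ F)
    (hQ : ∀ i, ∃ w, Z.Adj (q i) w)
    (h1 : LocFr Z κ F (Set.range q) (q 0) (q 1) (q 2) (q 3))
    (h2 : LocFr Z κ F (Set.range q) (q 0) (q 2) (q 1) (q 3))
    (h3 : LocFr Z κ F (Set.range q) (q 0) (q 3) (q 1) (q 2)) :
    ∃ D X : Set V, X.ncard ≤ 3 ∧ Disjoint D X ∧ Disjoint D F ∧ D ⊆ S ∧ Nb Z D ⊆ X ∪ F ∧
      (∀ i, q i ∈ D ∪ X) ∧ D.Nonempty := by
  have hQF' : ∀ x ∈ Set.range q, x ∉ F := by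
    rintro _ ⟨i, rfl⟩; exact hQF i
  rcases linked_or_set Z (T := T) 4 hQF' with hl | ⟨D, X, g1, g2, g3, g4, g5, g6, g7⟩
  · exact absurd (allFrames_of_local h.T4 h.TT hq hQF hl h1 h2 h3) hbad
  · refine ⟨D, X, by omega, g2, g3, ?_, g5, fun i => g6 ⟨i, rfl⟩, ?_⟩
    · intro z hz
      have hzST : z ∈ S ∪ T := by
        rcases g7 z hz with ⟨i, hi⟩ | ⟨w, hw⟩
        · obtain ⟨w, hw⟩ := hQ i
          rw [hi] at hw
          exact h.edge_mem z w hw
        · exact h.edge_mem z w hw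
      rcases hzST with h4 | h4
      · exact h4
      · exact absurd h4 (Set.disjoint_left.1 g4 hz)
    · rw [Set.nonempty_iff_ne_empty]
      intro hD
      have hsub : Set.range q ⊆ X := by
        intro x hx
        rcases g6 hx with h4 | h4
        · rw [hD] at h4; exact absurd h4 (Set.notMem_empty x)
        · exact h4
      have h4 := Set.ncard_le_ncard hsub (Set.toFinite _)
      have h5 : (Set.range q).ncard = 4 := by
        rw [← Set.image_univ, Set.ncard_image_of_injective _ hq, Set.ncard_univ]; simp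
      omega

lemma inj4 {q0 q1 q2 q3 : V} (h01 : q0 ≠ q1) (h02 : q0 ≠ q2) (h03 : q0 ≠ q3) (h12 : q1 ≠ q2)
    (h13 : q1 ≠ q3) (h23 : q2 ≠ q3) : Function.Injective (![q0, q1, q2, q3] : Fin 4 → V) := by
  intro x y hxy
  fin_cases x <;> fin_cases y <;>
    first
      | rfl
      | exact absurd hxy h01
      | exact absurd hxy h02
      | exact absurd hxy h03
      | exact absurd hxy h12
      | exact absurd hxy h13
      | exact absurd hxy h23
      | exact absurd hxy.symm h01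
      | exact absurd hxy.symm h02
      | exact absurd hxy.symm h03
      | exact absurd hxy.symm h12
      | exact absurd hxy.symm h13
      | exact absurd hxy.symm h23

/-- The theta lemma: `a ∈ S` and `b` with three common neighbours. -/
theorem theta_sep [Finite V] {Z : SimpleGraph V} {κ : V → ZMod 2} {S T : Set V}
    (h : Bas Z S T) (hZ : Proper Z κ) (hbad : ¬ AllFramesE Z κ T) {a b z1 z2 z3 : V}
    (haS : a ∈ S) (hab : a ≠ b) (h12 : z1 ≠ z2) (h13 : z1 ≠ z3) (h23 : z2 ≠ z3)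
    (a1 : Z.Adj a z1) (a2 : Z.Adj a z2) (a3 : Z.Adj a z3)
    (b1 : Z.Adj b z1) (b2 : Z.Adj b z2) (b3 : Z.Adj b z3) :
    ∃ D X : Set V, X.ncard ≤ 3 ∧ Disjoint D X ∧ a ∉ D ∧ D ⊆ S ∧ Nb Z D ⊆ insert a X ∧
      b ∈ D ∪ X ∧ z1 ∈ D ∪ X ∧ z2 ∈ D ∪ X ∧ z3 ∈ D ∪ X ∧ D.Nonempty := by
  let q : Fin 4 → V := ![b, z1, z2, z3]
  have hq : Function.Injective q := inj4 b1.ne b2.ne b3.ne h12 h13 h23
  have m0 : b ∈ ({a} : Set V) ∪ Set.range q := Or.inr ⟨0, rfl⟩
  have m1 : z1 ∈ ({a} : Set V) ∪ Set.range q := Or.inr ⟨1, rfl⟩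
  have m2 : z2 ∈ ({a} : Set V) ∪ Set.range q := Or.inr ⟨2, rfl⟩
  have m3 : z3 ∈ ({a} : Set V) ∪ Set.range q := Or.inr ⟨3, rfl⟩
  have ma : a ∈ ({a} : Set V) ∪ Set.range q := Or.inl rfl
  obtain ⟨D, X, g1, g2, g3, g4, g5, g6, g7⟩ := sep_of_local (F := {a}) (q := q) h hbad hq
    (by
      intro i hi
      rw [Set.mem_singleton_iff] at hi
      fin_cases i
      · exact hab hi.symm
      · exact a1.ne hi.symm
      · exact a2.ne hi.symm
      · exact a3.ne hi.symm)
    (by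
      intro i
      fin_cases i
      · exact ⟨z1, b1⟩
      · exact ⟨b, b1.symm⟩
      · exact ⟨b, b2.symm⟩
      · exact ⟨b, b3.symm⟩)
    (loc_theta hZ hab.symm h12 h13 h23 b1 b2 b3 a1 a2 a3 m0 ma m1 m2 m3)
    (loc_theta hZ hab.symm h12.symm h23 h13 b2 b1 b3 a2 a1 a3 m0 ma m2 m1 m3)
    (loc_theta hZ hab.symm h13.symm h23.symm h12 b3 b1 b2 a3 a1 a2 m0 ma m3 m1 m2)
  refine ⟨D, X, g1, g2, fun haD => Set.disjoint_left.1 g3 haD rfl, g4, ?_, g6 0, g6 1, g6 2,
    g6 3, g7⟩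
  intro x hx
  rcases g5 hx with h4 | h4
  · exact Or.inr h4
  · exact Or.inl h4

/-- A set with three elements. -/
lemma exists_three {N : Set V} (h : N.ncard = 3) :
    ∃ z1 z2 z3, z1 ≠ z2 ∧ z1 ≠ z3 ∧ z2 ≠ z3 ∧ N = {z1, z2, z3} := by
  obtain ⟨z1, z2, z3, h1, h2, h3, h4⟩ := Set.ncard_eq_three.1 h
  exact ⟨z1, z2, z3, h1, h2, h3, h4⟩

/-- T3. -/
theorem core_T3 [Finite V] {Z : SimpleGraph V} {κ : V → ZMod 2} {S T : Set V}
    (h : Bas Z S T) (hZ : Proper Z κ) (hbad : ¬ AllFramesE Z κ T)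
    (P1 : ∀ Y ⊆ S, 2 ≤ Y.ncard → 4 ≤ (Nb Z Y).ncard) :
    ∀ c d, d ∈ S → c ≠ d → (Z.neighborSet d).ncard = 3 →
      ¬ Z.neighborSet d ⊆ Z.neighborSet c := by
  intro c d hd hcd h3 hsub
  obtain ⟨z1, z2, z3, h12, h13, h23, hN⟩ := exists_three h3
  have e1 : z1 ∈ Z.neighborSet d := by rw [hN]; simp
  have e2 : z2 ∈ Z.neighborSet d := by rw [hN]; simp
  have e3 : z3 ∈ Z.neighborSet d := by rw [hN]; simp
  obtain ⟨D, X, g1, g2, g3, g4, g5, g6, g7, g8, g9, g10⟩ := theta_sep h hZ hbad (a := d) (b := c)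
    hd hcd.symm h12 h13 h23 e1 e2 e3 (hsub e1) (hsub e2) (hsub e3)
  have hDs : insert d D ⊆ S := Set.insert_subset hd g4
  have hcard : 2 ≤ (insert d D).ncard := by
    rw [Set.ncard_insert_of_notMem g3 (Set.toFinite _)]
    have := (Set.ncard_pos (Set.toFinite D)).2 g10
    omega
  have h5 := P1 (insert d D) hDs hcard
  have h6 : Nb Z (insert d D) ⊆ X := by
    rintro v ⟨hv, u, hu, huv⟩
    have hvd : v ≠ d := fun hh => hv (Or.inl hh)
    have hvD : v ∉ D := fun hh => hv (Or.inr hh)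
    rcases hu with hu | hu
    · rw [hu] at huv
      have hv' : v ∈ ({z1, z2, z3} : Set V) := by rw [← hN]; exact huv
      simp only [Set.mem_insert_iff, Set.mem_singleton_iff] at hv'
      rcases hv' with hv' | hv' | hv'
      · rw [hv'] at hvD ⊢; exact g7.resolve_left hvD
      · rw [hv'] at hvD ⊢; exact g8.resolve_left hvD
      · rw [hv'] at hvD ⊢; exact g9.resolve_left hvD
    · rcases g5 ⟨hvD, u, hu, huv⟩ with h7 | h7
      · exact absurd h7 hvd
      · exact h7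
  have h7 := Set.ncard_le_ncard h6 (Set.toFinite _)
  omega

/-- TYPE 1. -/
theorem core_TYPE1 [Finite V] {Z : SimpleGraph V} {κ : V → ZMod 2} {S T : Set V}
    (h : Bas Z S T) (hZ : Proper Z κ) (hbad : ¬ AllFramesE Z κ T)
    (deg3 : ∀ s ∈ S, 3 ≤ (Z.neighborSet s).ncard)
    (P1 : ∀ Y ⊆ S, 2 ≤ Y.ncard → 4 ≤ (Nb Z Y).ncard) :
    ∀ a b y z1 z2, a ∈ S → a ≠ b → y ≠ z1 → y ≠ z2 → z1 ≠ z2 →
      Z.Adj a y → Z.Adj a z1 → Z.Adj a z2 → Z.Adj b y → Z.Adj b z1 → Z.Adj b z2 →
      ∃ D ⊆ S, a ∉ D ∧ 2 ≤ D.ncard ∧ (Nb Z D).ncard = 4 ∧ a ∈ Nb Z D ∧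
        b ∈ D ∪ Nb Z D ∧ y ∈ D ∪ Nb Z D ∧ z1 ∈ D ∪ Nb Z D ∧ z2 ∈ D ∪ Nb Z D := by
  intro a b y z1 z2 haS hab hy1 hy2 h12 ay a1 a2 by' b1 b2
  obtain ⟨D, X, g1, g2, g3, g4, g5, g6, g7, g8, g9, g10⟩ := theta_sep h hZ hbad (a := a) (b := b)
    haS hab hy1 hy2 h12 ay a1 a2 by' b1 b2
  have hpos := (Set.ncard_pos (Set.toFinite D)).2 g10
  -- the case of one vertex
  have hone : D.ncard ≠ 1 := by
    intro h1
    obtain ⟨x, rfl⟩ := Set.ncard_eq_one.1 h1
    have hxS : x ∈ S := g4 rfl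
    have hNx : Z.neighborSet x ⊆ insert a X := by rw [← Nb_singleton]; exact g5
    have hdeg := deg3 x hxS
    -- X is contained in the other three
    have hQ : ({b, y, z1, z2} : Set V) ⊆ insert x X := by
      intro w hw
      simp only [Set.mem_insert_iff, Set.mem_singleton_iff] at hw
      rcases hw with hw | hw | hw | hw
      · rw [hw]; exact g6
      · rw [hw]; exact g7
      · rw [hw]; exact g8
      · rw [hw]; exact g9
    have hQ4 : ({b, y, z1, z2} : Set V).ncard = 4 := by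
      rw [Set.ncard_insert_of_notMem, Set.ncard_insert_of_notMem, Set.ncard_pair h12]
      · simp only [Set.mem_insert_iff, Set.mem_singleton_iff, not_or]
        exact ⟨hy1, hy2⟩
      · simp only [Set.mem_insert_iff, Set.mem_singleton_iff, not_or]
        exact ⟨by'.ne, b1.ne, b2.ne⟩
    have hxX : x ∉ X := fun hh => Set.disjoint_left.1 g2 rfl hh
    have heq : ({b, y, z1, z2} : Set V) = insert x X := by
      apply Set.eq_of_subset_of_ncard_le hQ _ (Set.toFinite _)
      rw [hQ4, Set.ncard_insert_of_notMem hxX (Set.toFinite _)]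
      omega
    have hxQ : x ∈ ({b, y, z1, z2} : Set V) := by rw [heq]; exact Or.inl rfl
    have hNQ : ∀ w, Z.Adj x w → w = a ∨ w = b ∨ w = y ∨ w = z1 ∨ w = z2 := by
      intro w hw
      rcases hNx hw with h7 | h7
      · exact Or.inl h7
      · right
        have : w ∈ ({b, y, z1, z2} : Set V) := by rw [heq]; exact Or.inr h7
        simpa only [Set.mem_insert_iff, Set.mem_singleton_iff] using this
    have hnc : ∀ {u v : V}, Z.Adj u v → κ u ≠ κ v := fun h1 => add_eq_one_iff.1 (hZ _ _ h1)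
    have hcol : ∀ {u v w : V}, Z.Adj u v → Z.Adj u w → κ v = κ w := fun h1 h2 =>
      eq_of_ne_of_ne (hnc h1).symm (hnc h2).symm
    have ky1 : κ y = κ z1 := hcol ay a1
    have ky2 : κ y = κ z2 := hcol ay a2
    have kab : κ a = κ b := hcol ay.symm by'.symm
    simp only [Set.mem_insert_iff, Set.mem_singleton_iff] at hxQ
    -- a vertex adjacent only to `a` and `b`
    have key : κ x = κ y → False := by
      intro hk
      have hsub : Z.neighborSet x ⊆ {a, b} := by
        intro w hw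
        have hw' : Z.Adj x w := hw
        rcases hNQ w hw' with h7 | h7 | h7 | h7 | h7
        · exact Or.inl h7
        · exact Or.inr h7
        · exact absurd hk (h7 ▸ hnc hw')
        · exact absurd (hk.trans ky1) (h7 ▸ hnc hw')
        · exact absurd (hk.trans ky2) (h7 ▸ hnc hw')
      have h7 := Set.ncard_le_ncard hsub (Set.toFinite _)
      rw [Set.ncard_pair hab] at h7
      omega
    rcases hxQ with hx | hx | hx | hx
    · -- x = b
      have hsub : Z.neighborSet x ⊆ {y, z1, z2} := by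
        intro w hw
        have hw' : Z.Adj x w := hw
        rcases hNQ w hw' with h7 | h7 | h7 | h7 | h7
        · exfalso
          rw [hx, h7] at hw'
          exact hnc hw' kab.symm
        · exfalso
          rw [hx, h7] at hw'
          exact hw'.ne rfl
        · exact Or.inl h7
        · exact Or.inr (Or.inl h7)
        · exact Or.inr (Or.inr h7)
      have hsub3 : ({y, z1, z2} : Set V).ncard = 3 := by
        rw [Set.ncard_insert_of_notMem, Set.ncard_pair h12]
        simp only [Set.mem_insert_iff, Set.mem_singleton_iff, not_or]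
        exact ⟨hy1, hy2⟩
      have hle := Set.ncard_le_ncard hsub (Set.toFinite _)
      refine core_T3 h hZ hbad P1 a x hxS (by rw [hx]; exact hab) (by omega) ?_
      intro w hw
      have := hsub hw
      simp only [Set.mem_insert_iff, Set.mem_singleton_iff] at this
      rcases this with h7 | h7 | h7
      · rw [h7]; exact ay
      · rw [h7]; exact a1
      · rw [h7]; exact a2
    · exact key (by rw [hx])
    · exact key (by rw [hx, ky1])
    · exact key (by rw [hx, ky2])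
  have h2 : 2 ≤ D.ncard := by omega
  have h4 := P1 D g4 h2
  have h5 : (insert a X).ncard ≤ 4 := by
    have := Set.ncard_insert_le a X
    omega
  have heq : Nb Z D = insert a X :=
    Set.eq_of_subset_of_ncard_le g5 (by omega) (Set.toFinite _)
  have h6 : (Nb Z D).ncard = 4 := by
    rw [heq] at h4 ⊢
    omega
  have hX : ∀ w, w ∈ D ∪ X → w ∈ D ∪ Nb Z D := by
    rintro w (hw | hw)
    · exact Or.inl hw
    · right; rw [heq]; exact Or.inr hw
  exact ⟨D, g4, g3, h2, h6, by rw [heq]; exact Or.inl rfl, hX _ g6, hX _ g7, hX _ g8, hX _ g9⟩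

/-- The L1 lemma. -/
theorem core_L1 [Finite V] {Z : SimpleGraph V} {κ : V → ZMod 2} {S T : Set V}
    (h : Bas Z S T) (hZ : Proper Z κ) (hbad : ¬ AllFramesE Z κ T)
    (P1 : ∀ Y ⊆ S, 2 ≤ Y.ncard → 4 ≤ (Nb Z Y).ncard) :
    ∀ w1 w2 y a b c e g, w1 ∈ S → w2 ∈ S → y ∈ S → b ∈ S → w1 ≠ w2 → y ≠ w1 → y ≠ w2 →
      a ≠ b → c ≠ e → c ≠ g → c ≠ a → c ≠ b → e ≠ g → a ≠ e → a ≠ g → b ≠ e → b ≠ g →
      Z.neighborSet w1 = {a, e, g} → Z.neighborSet w2 = {b, e, g} →
      Z.neighborSet y = {a, b, c} →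
      ∃ D ⊆ S, y ∈ D ∧ w1 ∈ D ∧ w2 ∈ D ∧ b ∈ Nb Z D ∧ (Nb Z D).ncard = 4 := by
  intro w1 w2 y a b c e g hw1 hw2 hy hb hww hyw1 hyw2 hab hce hcg hca hcb heg hae hag hbe hbg
    hN1 hN2 hNy
  have hL : L1Data Z w1 w2 y a b c e g :=
    { ww := hww, yw1 := hyw1, yw2 := hyw2, ab := hab, ca := hca, cb := hcb, ce := hce, cg := hcg,
      eg := heg, ae := hae, ag := hag, be := hbe, bg := hbg
      ya := by rw [← SimpleGraph.mem_neighborSet, hNy]; simp
      yb := by rw [← SimpleGraph.mem_neighborSet, hNy]; simp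
      yc := by rw [← SimpleGraph.mem_neighborSet, hNy]; simp
      w1a := by rw [← SimpleGraph.mem_neighborSet, hN1]; simp
      w1e := by rw [← SimpleGraph.mem_neighborSet, hN1]; simp
      w1g := by rw [← SimpleGraph.mem_neighborSet, hN1]; simp
      w2b := by rw [← SimpleGraph.mem_neighborSet, hN2]; simp
      w2e := by rw [← SimpleGraph.mem_neighborSet, hN2]; simp
      w2g := by rw [← SimpleGraph.mem_neighborSet, hN2]; simp }
  have hnc : ∀ {u v : V}, Z.Adj u v → κ u ≠ κ v := fun h1 => add_eq_one_iff.1 (hZ _ _ h1)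
  have hcol : ∀ {u v w : V}, Z.Adj u v → Z.Adj u w → κ v = κ w := fun h1 h2 =>
    eq_of_ne_of_ne (hnc h1).symm (hnc h2).symm
  have kac : κ c = κ a := hcol hL.yc hL.ya
  have kae : κ a = κ e := hcol hL.w1a hL.w1e
  have kag : κ a = κ g := hcol hL.w1a hL.w1g
  have kab : κ a = κ b := hcol hL.ya hL.yb
  have kya : κ y ≠ κ a := hnc hL.ya
  have kw1 : κ w1 ≠ κ a := hnc hL.w1a
  have kw2 : κ w2 ≠ κ a := by rw [kab]; exact hnc hL.w2b
  let F : Set V := {y, w1, w2, b}
  let q : Fin 4 → V := ![c, a, e, g]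
  have hq : Function.Injective q := inj4 hca hce hcg hae hag heg
  have hF : ∀ x, x ∈ F ↔ x = y ∨ x = w1 ∨ x = w2 ∨ x = b := by
    intro x; simp [F]
  have hFS : F ⊆ S := by
    intro x hx
    rcases (hF x).1 hx with h1 | h1 | h1 | h1
    · rw [h1]; exact hy
    · rw [h1]; exact hw1
    · rw [h1]; exact hw2
    · rw [h1]; exact hb
  have hnot : ∀ x, κ x = κ a → x ≠ b → x ∉ F := by
    intro x hx hxb hxF
    rcases (hF x).1 hxF with h1 | h1 | h1 | h1
    · exact kya (by rw [← h1]; exact hx)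
    · exact kw1 (by rw [← h1]; exact hx)
    · exact kw2 (by rw [← h1]; exact hx)
    · exact hxb h1
  have hQF : ∀ i, q i ∉ F := by
    intro i
    fin_cases i
    · exact hnot c kac hcb
    · exact hnot a rfl hab
    · exact hnot e kae.symm hbe.symm
    · exact hnot g kag.symm hbg.symm
  have hQadj : ∀ i, ∃ w, Z.Adj (q i) w := by
    intro i
    fin_cases i
    · exact ⟨y, hL.yc.symm⟩
    · exact ⟨y, hL.ya.symm⟩
    · exact ⟨w1, hL.w1e.symm⟩
    · exact ⟨w1, hL.w1g.symm⟩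
  have mF : ∀ x, x ∈ F → x ∈ F ∪ Set.range q := fun x hx => Or.inl hx
  obtain ⟨l1, l2, l3⟩ := loc_L1 hZ hL (F := F) (Q := Set.range q)
    (Or.inr ⟨0, rfl⟩) (Or.inr ⟨1, rfl⟩) (Or.inr ⟨2, rfl⟩) (Or.inr ⟨3, rfl⟩)
    (mF y ((hF y).2 (Or.inl rfl))) (mF w1 ((hF w1).2 (Or.inr (Or.inl rfl))))
    (mF w2 ((hF w2).2 (Or.inr (Or.inr (Or.inl rfl)))))
    (mF b ((hF b).2 (Or.inr (Or.inr (Or.inr rfl)))))
  obtain ⟨D, X, g1, g2, g3, g4, g5, g6, g7⟩ := sep_of_local (F := F) (q := q) h hbad hq hQF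
    hQadj l1 l2 l3
  have gc : c ∈ D ∪ X := g6 0
  have ga : a ∈ D ∪ X := g6 1
  have ge : e ∈ D ∪ X := g6 2
  have gg : g ∈ D ∪ X := g6 3
  have hbD : b ∉ D := fun hh =>
    Set.disjoint_left.1 g3 hh ((hF b).2 (Or.inr (Or.inr (Or.inr rfl))))
  let D1 : Set V := insert y (insert w1 (insert w2 D))
  have hD1 : ∀ x, x ∈ D1 ↔ x = y ∨ x = w1 ∨ x = w2 ∨ x ∈ D := by
    intro x; simp [D1]
  have hD1S : D1 ⊆ S := by
    intro x hx
    rcases (hD1 x).1 hx with h1 | h1 | h1 | h1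
    · rw [h1]; exact hy
    · rw [h1]; exact hw1
    · rw [h1]; exact hw2
    · exact g4 h1
  have hsub : Nb Z D1 ⊆ insert b X := by
    rintro v ⟨hv, u, hu, huv⟩
    have hvy : v ≠ y := fun hh => hv ((hD1 v).2 (Or.inl hh))
    have hv1 : v ≠ w1 := fun hh => hv ((hD1 v).2 (Or.inr (Or.inl hh)))
    have hv2 : v ≠ w2 := fun hh => hv ((hD1 v).2 (Or.inr (Or.inr (Or.inl hh))))
    have hvD : v ∉ D := fun hh => hv ((hD1 v).2 (Or.inr (Or.inr (Or.inr hh))))
    have hX : ∀ z, v = z → z ∈ D ∪ X → v ∈ insert b X := by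
      intro z hz hzX
      rw [hz] at hvD ⊢
      exact Or.inr (hzX.resolve_left hvD)
    rcases (hD1 u).1 hu with h1 | h1 | h1 | h1
    · rw [h1] at huv
      have : v ∈ ({a, b, c} : Set V) := by rw [← hNy]; exact huv
      simp only [Set.mem_insert_iff, Set.mem_singleton_iff] at this
      rcases this with h2 | h2 | h2
      · exact hX a h2 ga
      · exact Or.inl h2
      · exact hX c h2 gc
    · rw [h1] at huv
      have : v ∈ ({a, e, g} : Set V) := by rw [← hN1]; exact huv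
      simp only [Set.mem_insert_iff, Set.mem_singleton_iff] at this
      rcases this with h2 | h2 | h2
      · exact hX a h2 ga
      · exact hX e h2 ge
      · exact hX g h2 gg
    · rw [h1] at huv
      have : v ∈ ({b, e, g} : Set V) := by rw [← hN2]; exact huv
      simp only [Set.mem_insert_iff, Set.mem_singleton_iff] at this
      rcases this with h2 | h2 | h2
      · exact Or.inl h2
      · exact hX e h2 ge
      · exact hX g h2 gg
    · rcases g5 ⟨hvD, u, h1, huv⟩ with h2 | h2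
      · exact Or.inr h2
      · rcases (hF v).1 h2 with h3 | h3 | h3 | h3
        · exact absurd h3 hvy
        · exact absurd h3 hv1
        · exact absurd h3 hv2
        · exact Or.inl h3
  have hcard2 : 2 ≤ D1.ncard := by
    have h1 : ({y, w1} : Set V) ⊆ D1 := by
      intro x hx
      simp only [Set.mem_insert_iff, Set.mem_singleton_iff] at hx
      rcases hx with hx | hx
      · exact (hD1 x).2 (Or.inl hx)
      · exact (hD1 x).2 (Or.inr (Or.inl hx))
    have h2 := Set.ncard_le_ncard h1 (Set.toFinite _)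
    rwa [Set.ncard_pair hyw1] at h2
  have h4 := P1 D1 hD1S hcard2
  have h5 : (insert b X).ncard ≤ 4 := by
    have := Set.ncard_insert_le b X
    omega
  have heq : Nb Z D1 = insert b X :=
    Set.eq_of_subset_of_ncard_le hsub (by omega) (Set.toFinite _)
  refine ⟨D1, hD1S, (hD1 y).2 (Or.inl rfl), (hD1 w1).2 (Or.inr (Or.inl rfl)),
    (hD1 w2).2 (Or.inr (Or.inr (Or.inl rfl))), by rw [heq]; exact Or.inl rfl, ?_⟩
  rw [heq] at h4 ⊢
  omega

end Pool.Agent.Helper1.TD
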